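import Mathlib

namespace Pool.Agent.Lib.MP_6a062b_co

open Finset Polynomial

theorem beta_int (a b : ℕ) : ∫ x in (0 : ℝ)..1, x ^ a * (1 - x) ^ b =
    a.factorial * b.factorial / (a + b + 1).factorial := by
  induction b generalizing a with
  | zero =>
    have h : (((a + 1).factorial : ℕ) : ℝ) = (a + 1) * a.factorial := by
      rw [Nat.factorial_succ]; push_cast; ring
    have h2 : (a.factorial : ℝ) ≠ 0 := by exact_mod_cast Nat.factorial_ne_zero _
    have h3 : (a : ℝ) + 1 ≠ 0 := by positivity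
    simp [integral_pow, h]
    field_simp
  | succ b ih =>
    have h1 : ∀ x : ℝ, HasDerivAt (fun x : ℝ => x ^ (a + 1) * (1 - x) ^ (b + 1))
        (((a : ℝ) + 1) * (x ^ a * (1 - x) ^ (b + 1)) - ((b : ℝ) + 1) * (x ^ (a + 1) * (1 - x) ^ b)) x := by
      intro x
      have h2 : HasDerivAt (fun x : ℝ => x ^ (a + 1)) ((a + 1 : ℕ) * x ^ a) x := by
        simpa using hasDerivAt_pow (a + 1) x
      have h3 : HasDerivAt (fun x : ℝ => (1 - x) ^ (b + 1)) ((b + 1 : ℕ) * (1 - x) ^ b * (-1)) x := by
        have h4 : HasDerivAt (fun x : ℝ => 1 - x) (-1) x := by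
          simpa using (hasDerivAt_id x).const_sub 1
        simpa using h4.fun_pow (b + 1)
      exact (h2.fun_mul h3).congr_deriv (by push_cast; ring)
    have h2 : ∫ x in (0 : ℝ)..1, (((a : ℝ) + 1) * (x ^ a * (1 - x) ^ (b + 1)) -
        ((b : ℝ) + 1) * (x ^ (a + 1) * (1 - x) ^ b)) = 0 := by
      rw [intervalIntegral.integral_eq_sub_of_hasDerivAt (fun x _ => h1 x)]
      · simp
      · apply Continuous.intervalIntegrable
        fun_prop
    rw [intervalIntegral.integral_sub, intervalIntegral.integral_const_mul,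
      intervalIntegral.integral_const_mul, ih] at h2
    · have h3 : (a : ℝ) + 1 ≠ 0 := by positivity
      have h4 : (((a + 1).factorial : ℕ) : ℝ) = (a + 1) * a.factorial := by
        rw [Nat.factorial_succ]; push_cast; ring
      have h5 : (((b + 1).factorial : ℕ) : ℝ) = (b + 1) * b.factorial := by
        rw [Nat.factorial_succ]; push_cast; ring
      have h6 : a + 1 + b + 1 = a + (b + 1) + 1 := by ring
      rw [h4, h6] at h2
      rw [h5]
      have h7 : ((a : ℝ) + 1) * ∫ x in (0 : ℝ)..1, x ^ a * (1 - x) ^ (b + 1) =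
          ((a : ℝ) + 1) * (a.factorial * ((b + 1) * b.factorial) / (a + (b + 1) + 1).factorial) := by
        rw [sub_eq_zero.1 h2]
        ring
      exact mul_left_cancel₀ h3 h7
    · apply Continuous.intervalIntegrable
      fun_prop
    · apply Continuous.intervalIntegrable
      fun_prop

/-- normalising constant -/
noncomputable def kap (n : ℕ) : ℝ := (2 * n + 1).factorial / (n.factorial) ^ 2

theorem kap_pos (n : ℕ) : 0 < kap n := by
  unfold kap
  positivity

/-- the polynomial `b` -/
noncomputable def bp (n : ℕ) : ℝ[X] :=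
  ∑ i ∈ range (n + 1), C (kap n * ((-1) ^ i * n.choose i / (n + 1 + i))) * X ^ i

noncomputable def Bp (n : ℕ) : ℝ[X] := X ^ (n + 1) * bp n

theorem bp_natDegree (n : ℕ) : (bp n).natDegree ≤ n := by
  unfold bp
  apply natDegree_sum_le_of_forall_le
  intro i hi
  rw [Finset.mem_range] at hi
  exact (natDegree_C_mul_X_pow_le _ _).trans (by omega)

theorem Bp_derivative (n : ℕ) : derivative (Bp n) = C (kap n) * (X * (1 - X)) ^ n := by
  have h1 : Bp n = ∑ i ∈ range (n + 1),
      C (kap n * ((-1) ^ i * n.choose i / (n + 1 + i))) * X ^ (n + 1 + i) := by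
    rw [Bp, bp, Finset.mul_sum]
    apply Finset.sum_congr rfl
    intro i _
    ring
  have h2 : ((1 : ℝ[X]) - X) ^ n = ∑ i ∈ range (n + 1), C ((-1) ^ i * (n.choose i : ℝ)) * X ^ i := by
    have : (1 : ℝ[X]) - X = -X + 1 := by ring
    rw [this, add_pow]
    apply Finset.sum_congr rfl
    intro i _
    rw [neg_pow (X : ℝ[X]) i]
    simp
    ring
  rw [h1, derivative_sum, mul_pow, h2, Finset.mul_sum, Finset.mul_sum]
  apply Finset.sum_congr rfl
  intro i _
  rw [derivative_C_mul, derivative_X_pow, show n + 1 + i - 1 = n + i by omega]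
  have h3 : (C (kap n * ((-1) ^ i * n.choose i / (n + 1 + i))) : ℝ[X]) * C ((n + 1 + i : ℕ) : ℝ) =
      C (kap n) * C ((-1) ^ i * (n.choose i : ℝ)) := by
    rw [← C_mul, ← C_mul]
    congr 1
    have : (n : ℝ) + 1 + i ≠ 0 := by positivity
    push_cast
    field_simp
  rw [← mul_assoc, h3]
  ring

theorem Bp_hasDerivAt (n : ℕ) (x : ℝ) :
    HasDerivAt (fun x => (Bp n).eval x) (kap n * (x * (1 - x)) ^ n) x := by
  have := (Bp n).hasDerivAt x
  rw [Bp_derivative] at this
  simpa using this

theorem Bp_zero (n : ℕ) : (Bp n).eval 0 = 0 := by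
  simp [Bp]

theorem Bp_one (n : ℕ) : (Bp n).eval 1 = 1 := by
  have h1 : ∫ x in (0 : ℝ)..1, kap n * (x * (1 - x)) ^ n = (Bp n).eval 1 - (Bp n).eval 0 := by
    rw [intervalIntegral.integral_eq_sub_of_hasDerivAt (fun x _ => Bp_hasDerivAt n x)]
    apply Continuous.intervalIntegrable
    fun_prop
  rw [Bp_zero, sub_zero] at h1
  rw [← h1, intervalIntegral.integral_const_mul]
  have h2 : ∫ x in (0 : ℝ)..1, (x * (1 - x)) ^ n = n.factorial * n.factorial / (n + n + 1).factorial := by
    rw [← beta_int]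
    congr 1
    funext x
    rw [mul_pow]
  rw [h2, kap, show n + n + 1 = 2 * n + 1 by ring]
  have h3 : (n.factorial : ℝ) ≠ 0 := by exact_mod_cast Nat.factorial_ne_zero _
  have h4 : ((2 * n + 1).factorial : ℝ) ≠ 0 := by exact_mod_cast Nat.factorial_ne_zero _
  field_simp

theorem Bp_symm (n : ℕ) : Bp n + (Bp n).comp (1 - X) = 1 := by
  have h1 : derivative (Bp n + (Bp n).comp (1 - X)) = 0 := by
    rw [derivative_add, derivative_comp, Bp_derivative]
    simp only [mul_comp, C_comp, pow_comp, X_comp, sub_comp, one_comp, derivative_sub,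
      derivative_one, derivative_X]
    ring
  have h2 := derivative_eq_zero.1 h1
  have h3 := eq_C_of_natDegree_eq_zero h2
  have h4 : (Bp n + (Bp n).comp (1 - X)).eval 0 = 1 := by
    simp [eval_comp, Bp_zero, Bp_one]
  rw [h3] at h4 ⊢
  rw [eval_C] at h4
  rw [h4, C_1]

end Pool.Agent.Lib.MP_6a062b_co
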