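import Mathlib

namespace Pool.Agent.Lib.MP_6a062b_co

open Finset Equiv

variable {R : Type*} [CommRing R]

theorem sum_injective {k m : ℕ} (F : (Fin k → Fin m) → R)
    (hF : ∀ p, ¬ Function.Injective p → F p = 0) :
    ∑ p, F p = ∑ g ∈ Finset.univ.filter (fun g : Fin k → Fin m => StrictMono g),
      ∑ τ : Perm (Fin k), F (g ∘ τ) := by
  classical
  have h1 : ∑ p, F p = ∑ p ∈ Finset.univ.filter (fun p : Fin k → Fin m => Function.Injective p), F p := by
    rw [Finset.sum_filter_of_ne]
    intro p _ hp
    by_contra h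
    exact hp (hF p h)
  rw [h1, ← Finset.sum_product']
  refine Finset.sum_nbij' (fun p => (p ∘ Tuple.sort p, (Tuple.sort p)⁻¹)) (fun x => x.1 ∘ x.2)
    ?_ ?_ ?_ ?_ ?_
  · intro p hp
    simp only [Finset.mem_filter, Finset.mem_univ, true_and] at hp
    simp only [Finset.mem_product, Finset.mem_filter, Finset.mem_univ, true_and, and_true]
    exact (Tuple.monotone_sort p).strictMono_of_injective (hp.comp (Tuple.sort p).injective)
  · rintro ⟨g, τ⟩ hx
    simp only [Finset.mem_product, Finset.mem_filter, Finset.mem_univ, true_and, and_true] at hx ⊢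
    exact hx.injective.comp τ.injective
  · intro p _
    funext i
    simp
  · rintro ⟨g, τ⟩ hx
    simp only [Finset.mem_product, Finset.mem_filter, Finset.mem_univ, true_and, and_true] at hx
    have h2 : (g ∘ τ) ∘ Tuple.sort (g ∘ τ) = g := by
      rw [Tuple.comp_perm_comp_sort_eq_comp_sort, Tuple.sort_eq_refl_iff_monotone.2 hx.monotone]
      rfl
    have h3 : ∀ i, τ (Tuple.sort (g ∘ τ) i) = i := by
      intro i
      exact hx.injective (congrFun h2 i)
    have h4 : (Tuple.sort (g ∘ τ))⁻¹ = τ := by
      ext i
      have h5 := h3 ((Tuple.sort (g ∘ τ))⁻¹ i)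
      have h6 : Tuple.sort (g ∘ τ) ((Tuple.sort (g ∘ τ))⁻¹ i) = i := by simp
      rw [h6] at h5
      rw [← h5]
    simp only [Prod.mk.injEq]
    exact ⟨h2, h4⟩
  · intro p _
    simp only
    congr 1
    funext i
    simp

theorem cauchyBinet {k m : ℕ} (A : Matrix (Fin k) (Fin m) R) (B : Matrix (Fin m) (Fin k) R) :
    (A * B).det = ∑ g ∈ Finset.univ.filter (fun g : Fin k → Fin m => StrictMono g),
      (A.submatrix id g).det * (B.submatrix g id).det := by
  have h1 : (A * B).det = ∑ p : Fin k → Fin m, (∏ i, B (p i) i) * (A.submatrix id p).det := by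
    simp only [Matrix.det_apply', Matrix.mul_apply, Finset.prod_univ_sum, Finset.mul_sum,
      Fintype.piFinset_univ]
    rw [Finset.sum_comm]
    apply Finset.sum_congr rfl
    intro p _
    apply Finset.sum_congr rfl
    intro σ _
    rw [Finset.prod_mul_distrib]
    simp only [Matrix.submatrix_apply, id]
    ring
  rw [h1, sum_injective]
  · apply Finset.sum_congr rfl
    intro g _
    rw [Matrix.det_apply' (B.submatrix g id), Finset.mul_sum]
    apply Finset.sum_congr rfl
    intro τ _
    have h2 : A.submatrix id (g ∘ τ) = (A.submatrix id g).submatrix id τ := by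
      ext i j; rfl
    rw [h2, Matrix.det_permute']
    simp only [Matrix.submatrix_apply, id, Function.comp]
    ring
  · intro p hp
    rw [Function.Injective] at hp
    push Not at hp
    obtain ⟨a, b, hab, hne⟩ := hp
    rw [Matrix.det_zero_of_column_eq hne, mul_zero]
    intro i
    simp [hab]

end Pool.Agent.Lib.MP_6a062b_co
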