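import Mathlib

namespace Pool.Agent.Lib.MP_6a062b_co

open Finset

variable {α : Type*} [DecidableEq α] (r : α → α → Prop)

/-- Linear extensions of `(s, r)`, as functions vanishing outside `s`. -/
def LinE (s : Finset α) : Set (α → ℕ) :=
  {T | (∀ x, x ∉ s → T x = 0) ∧ Set.BijOn T s (Set.Icc 1 s.card) ∧
    ∀ x ∈ s, ∀ y ∈ s, r x y → T x < T y}

/-- The number of linear extensions. -/
noncomputable def e (s : Finset α) : ℕ := Nat.card (LinE r s)

open Classical in
/-- maximal elements -/
noncomputable def maxs (s : Finset α) : Finset α := s.filter (fun x => ∀ y ∈ s, ¬ r x y)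

open Classical in
/-- minimal elements -/
noncomputable def mins (s : Finset α) : Finset α := s.filter (fun x => ∀ y ∈ s, ¬ r y x)

theorem mem_maxs {s : Finset α} {x : α} : x ∈ maxs r s ↔ x ∈ s ∧ ∀ y ∈ s, ¬ r x y := by
  simp [maxs]

theorem mem_mins {s : Finset α} {x : α} : x ∈ mins r s ↔ x ∈ s ∧ ∀ y ∈ s, ¬ r y x := by
  simp [mins]

instance finite_LinE (s : Finset α) : Finite (LinE r s) := by
  classical
  apply Finite.of_injective
    (fun T : LinE r s => fun x : s => (⟨T.1 x.1, by
      have := T.2.2.1.mapsTo x.2
      simp only [Set.mem_Icc] at this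
      omega⟩ : Fin (s.card + 1)))
  intro T T' h
  apply Subtype.ext
  funext x
  by_cases hx : x ∈ s
  · have := congrFun h ⟨x, hx⟩
    simpa using this
  · rw [T.2.1 x hx, T'.2.1 x hx]

theorem e_empty : e r (∅ : Finset α) = 1 := by
  have : LinE r (∅ : Finset α) = {fun _ => 0} := by
    ext T
    simp only [LinE, Finset.notMem_empty, not_false_eq_true, forall_const, Finset.coe_empty,
      Finset.card_empty, Set.mem_ofPred_eq, Set.mem_singleton_iff]
    constructor
    · rintro ⟨h, -⟩
      funext x
      exact h x
    · rintro rfl
      refine ⟨fun _ => rfl, ?_, ?_⟩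
      · have : Set.Icc 1 0 = (∅ : Set ℕ) := by
          ext; simp
        rw [this]
        exact Set.bijOn_empty _
      · simp
  rw [e, this]
  simp

theorem card_erase' {s : Finset α} {x : α} (hx : x ∈ s) : (s.erase x).card + 1 = s.card :=
  Finset.card_erase_add_one hx

/-- extension of a linear extension of `s.erase x` -/
theorem update_mem {s : Finset α} {x : α} (hx : x ∈ maxs r s) {T : α → ℕ}
    (hT : T ∈ LinE r (s.erase x)) : Function.update T x s.card ∈ LinE r s := by
  rw [mem_maxs] at hx
  obtain ⟨hx, hmax⟩ := hx
  obtain ⟨h0, h1, h2⟩ := hT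
  have hc := card_erase' hx
  refine ⟨?_, ?_, ?_⟩
  · intro y hy
    have hyx : y ≠ x := by rintro rfl; exact hy hx
    rw [Function.update_of_ne hyx]
    exact h0 y (by simp [hy])
  · refine ⟨?_, ?_, ?_⟩
    · intro y hy
      by_cases hyx : y = x
      · subst hyx
        rw [Function.update_self]
        simp only [Set.mem_Icc]
        omega
      · rw [Function.update_of_ne hyx]
        have := h1.mapsTo (show y ∈ ((s.erase x : Finset α) : Set α) by
          simp only [Finset.coe_erase, Set.mem_sdiff, Set.mem_singleton_iff]
          exact ⟨hy, hyx⟩)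
        simp only [Set.mem_Icc] at this ⊢
        omega
    · intro y hy z hz hyz
      by_cases hyx : y = x
      · by_cases hzx : z = x
        · rw [hyx, hzx]
        · exfalso
          subst hyx
          rw [Function.update_self, Function.update_of_ne hzx] at hyz
          have := h1.mapsTo (show z ∈ ((s.erase y : Finset α) : Set α) by
            simp only [Finset.coe_erase, Set.mem_sdiff, Set.mem_singleton_iff]
            exact ⟨hz, hzx⟩)
          simp only [Set.mem_Icc] at this
          omega
      · by_cases hzx : z = x
        · exfalso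
          subst hzx
          rw [Function.update_self, Function.update_of_ne hyx] at hyz
          have := h1.mapsTo (show y ∈ ((s.erase z : Finset α) : Set α) by
            simp only [Finset.coe_erase, Set.mem_sdiff, Set.mem_singleton_iff]
            exact ⟨hy, hyx⟩)
          simp only [Set.mem_Icc] at this
          omega
        · rw [Function.update_of_ne hyx, Function.update_of_ne hzx] at hyz
          exact h1.injOn (by simpa using ⟨hy, hyx⟩) (by simpa using ⟨hz, hzx⟩) hyz
    · intro m hm
      simp only [Set.mem_Icc] at hm
      by_cases hms : m = s.card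
      · exact ⟨x, hx, by rw [Function.update_self, hms]⟩
      · obtain ⟨y, hy, hym⟩ := h1.surjOn (show m ∈ Set.Icc 1 (s.erase x).card by
          simp only [Set.mem_Icc]; omega)
        simp only [Finset.coe_erase, Set.mem_sdiff, Set.mem_singleton_iff] at hy
        refine ⟨y, hy.1, ?_⟩
        rw [Function.update_of_ne hy.2, hym]
  · intro y hy z hz hyz
    have hyx : y ≠ x := by
      rintro rfl
      exact hmax z hz hyz
    rw [Function.update_of_ne hyx]
    by_cases hzx : z = x
    · rw [hzx, Function.update_self]
      have := h1.mapsTo (show y ∈ ((s.erase x : Finset α) : Set α) by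
            simp only [Finset.coe_erase, Set.mem_sdiff, Set.mem_singleton_iff]
            exact ⟨hy, hyx⟩)
      simp only [Set.mem_Icc] at this
      omega
    · rw [Function.update_of_ne hzx]
      exact h2 y (by simp [hy, hyx]) z (by simp [hz, hzx]) hyz

theorem e_max {s : Finset α} (hs : s.Nonempty) :
    e r s = ∑ x ∈ maxs r s, e r (s.erase x) := by
  classical
  have key : (Σ x : {x // x ∈ maxs r s}, LinE r (s.erase x.1)) ≃ LinE r s := by
    refine Equiv.ofBijective
      (fun p => ⟨Function.update p.2.1 p.1.1 s.card, update_mem r p.1.2 p.2.2⟩) ⟨?_, ?_⟩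
    · rintro ⟨⟨x, hx⟩, ⟨T, hT⟩⟩ ⟨⟨x', hx'⟩, ⟨T', hT'⟩⟩ h
      simp only [Subtype.mk.injEq] at h
      have hxs : x ∈ s := (mem_maxs r).1 hx |>.1
      have hxs' : x' ∈ s := (mem_maxs r).1 hx' |>.1
      have hc := card_erase' hxs
      have hc' := card_erase' hxs'
      have hxx : x = x' := by
        by_contra hne
        have := congrFun h x
        rw [Function.update_self, Function.update_of_ne hne] at this
        have h3 := hT'.2.1.mapsTo (show x ∈ ((s.erase x' : Finset α) : Set α) by
            simp only [Finset.coe_erase, Set.mem_sdiff, Set.mem_singleton_iff]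
            exact ⟨hxs, hne⟩)
        simp only [Set.mem_Icc] at h3
        omega
      subst hxx
      have hTT : T = T' := by
        funext y
        by_cases hy : y = x
        · subst hy
          rw [hT.1 y (by simp), hT'.1 y (by simp)]
        · have := congrFun h y
          rwa [Function.update_of_ne hy, Function.update_of_ne hy] at this
      subst hTT
      rfl
    · rintro ⟨T, h0, h1, h2⟩
      obtain ⟨x, hx, hxT⟩ := h1.surjOn (show s.card ∈ Set.Icc 1 s.card by
        simp only [Set.mem_Icc, le_refl, and_true]
        exact hs.card_pos)
      have hx' : x ∈ s := hx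
      have hc := card_erase' hx'
      have hmax : x ∈ maxs r s := by
        rw [mem_maxs]
        refine ⟨hx', fun y hy hxy => ?_⟩
        have h3 := h2 x hx' y hy hxy
        have h4 := h1.mapsTo (show y ∈ (s : Set α) from hy)
        simp only [Set.mem_Icc] at h4
        omega
      refine ⟨⟨⟨x, hmax⟩, ⟨Function.update T x 0, ?_, ?_, ?_⟩⟩, ?_⟩
      · intro y hy
        by_cases hyx : y = x
        · rw [hyx, Function.update_self]
        · rw [Function.update_of_ne hyx]
          apply h0
          intro hys
          exact hy (by simp [hys, hyx])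
      · refine ⟨?_, ?_, ?_⟩
        · intro y hy
          simp only [Finset.coe_erase, Set.mem_sdiff, Set.mem_singleton_iff] at hy
          rw [Function.update_of_ne hy.2]
          have h4 := h1.mapsTo hy.1
          have h5 : T y ≠ s.card := by
            intro h6
            apply hy.2
            exact h1.injOn hy.1 hx (by rw [h6, hxT])
          simp only [Set.mem_Icc] at h4 ⊢
          omega
        · intro y hy z hz hyz
          simp only [Finset.coe_erase, Set.mem_sdiff, Set.mem_singleton_iff] at hy hz
          rw [Function.update_of_ne hy.2, Function.update_of_ne hz.2] at hyz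
          exact h1.injOn hy.1 hz.1 hyz
        · intro m hm
          simp only [Set.mem_Icc] at hm
          obtain ⟨y, hy, hym⟩ := h1.surjOn (show m ∈ Set.Icc 1 s.card by
            simp only [Set.mem_Icc]; omega)
          have hyx : y ≠ x := by
            rintro rfl
            omega
          refine ⟨y, ?_, ?_⟩
          · simp only [Finset.coe_erase, Set.mem_sdiff, Set.mem_singleton_iff]
            exact ⟨hy, hyx⟩
          · rw [Function.update_of_ne hyx, hym]
      · intro y hy z hz hyz
        rw [Finset.mem_erase] at hy hz
        rw [Function.update_of_ne hy.1, Function.update_of_ne hz.1]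
        exact h2 y hy.2 z hz.2 hyz
      · apply Subtype.ext
        funext y
        by_cases hyx : y = x
        · simp only [hyx, Function.update_self, hxT]
        · simp only [Function.update_of_ne hyx]
  rw [e, ← Nat.card_congr key, Nat.card_sigma]
  exact Finset.sum_coe_sort (maxs r s) (fun x => e r (s.erase x))

/-- recursion, valid for all `s` -/
theorem e_rec (s : Finset α) :
    e r s = (if s = ∅ then 1 else 0) + ∑ x ∈ maxs r s, e r (s.erase x) := by
  by_cases hs : s = ∅
  · subst hs
    simp [e_empty, maxs]
  · rw [if_neg hs, zero_add]
    exact e_max r (Finset.nonempty_iff_ne_empty.2 hs)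

/-- recursion on minimal elements -/
theorem e_min (s : Finset α) :
    e r s = (if s = ∅ then 1 else 0) + ∑ x ∈ mins r s, e r (s.erase x) := by
  classical
  induction hn : s.card using Nat.strong_induction_on generalizing s with
  | _ n ih =>
    rw [e_rec]
    congr 1
    by_cases h1 : s.card ≤ 1
    · -- at most one element: maxs = mins
      have : maxs r s = mins r s := by
        ext x
        rw [mem_maxs, mem_mins]
        constructor
        · rintro ⟨hx, h⟩
          refine ⟨hx, fun y hy => ?_⟩
          have hxy : x = y := Finset.card_le_one.1 h1 x hx y hy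
          subst hxy
          exact h _ hx
        · rintro ⟨hx, h⟩
          refine ⟨hx, fun y hy => ?_⟩
          have hxy : x = y := Finset.card_le_one.1 h1 x hx y hy
          subst hxy
          exact h _ hx
      rw [this]
    · have hne : ∀ x ∈ s, s.erase x ≠ ∅ := by
        intro x hx h
        have := card_erase' hx
        rw [h, Finset.card_empty] at this
        omega
      have hL : ∀ y ∈ maxs r s, e r (s.erase y) =
          ∑ x ∈ (mins r s).erase y, e r ((s.erase y).erase x) := by
        intro y hy
        have hys := ((mem_maxs r).1 hy).1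
        have hc := card_erase' hys
        rw [ih (s.erase y).card (by omega) (s.erase y) rfl, if_neg (hne y hys), zero_add]
        apply Finset.sum_congr _ (fun _ _ => rfl)
        ext x
        rw [mem_mins, Finset.mem_erase, Finset.mem_erase, mem_mins]
        constructor
        · rintro ⟨⟨h1, h2⟩, h3⟩
          refine ⟨h1, h2, fun z hz => ?_⟩
          by_cases hzy : z = y
          · subst hzy
            exact ((mem_maxs r).1 hy).2 x h2
          · exact h3 z (by simp [hzy, hz])
        · rintro ⟨h1, h2, h3⟩
          exact ⟨⟨h1, h2⟩, fun z hz => h3 z (Finset.mem_of_mem_erase hz)⟩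
      have hR : ∀ x ∈ mins r s, e r (s.erase x) =
          ∑ y ∈ (maxs r s).erase x, e r ((s.erase x).erase y) := by
        intro x hx
        have hxs := ((mem_mins r).1 hx).1
        rw [e_rec, if_neg (hne x hxs), zero_add]
        apply Finset.sum_congr _ (fun _ _ => rfl)
        ext y
        rw [mem_maxs, Finset.mem_erase, Finset.mem_erase, mem_maxs]
        constructor
        · rintro ⟨⟨h1, h2⟩, h3⟩
          refine ⟨h1, h2, fun z hz => ?_⟩
          by_cases hzx : z = x
          · subst hzx
            exact ((mem_mins r).1 hx).2 y h2
          · exact h3 z (by simp [hzx, hz])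
        · rintro ⟨h1, h2, h3⟩
          exact ⟨⟨h1, h2⟩, fun z hz => h3 z (Finset.mem_of_mem_erase hz)⟩
      rw [Finset.sum_congr rfl hL, Finset.sum_congr rfl hR]
      have e1 : ∀ (A B : Finset α) (f : α → α → ℕ),
          ∑ y ∈ A, ∑ x ∈ B.erase y, f y x = ∑ y ∈ A, ∑ x ∈ B, if x = y then 0 else f y x := by
        intro A B f
        apply Finset.sum_congr rfl
        intro y _
        rw [← Finset.sum_filter_ne_zero (s := B)]
        rw [← Finset.sum_filter_ne_zero (s := B.erase y)]
        apply Finset.sum_congr
        · ext x
          simp only [Finset.mem_filter, Finset.mem_erase]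
          constructor
          · rintro ⟨⟨h1, h2⟩, h3⟩
            refine ⟨h2, ?_⟩
            rw [if_neg h1]; exact h3
          · rintro ⟨h1, h2⟩
            by_cases hxy : x = y
            · simp [hxy] at h2
            · rw [if_neg hxy] at h2
              exact ⟨⟨hxy, h1⟩, h2⟩
        · intro x hx
          simp only [Finset.mem_filter] at hx
          by_cases hxy : x = y
          · simp [hxy] at hx
          · rw [if_neg hxy]
      rw [e1, e1, Finset.sum_comm]
      apply Finset.sum_congr rfl
      intro x _
      apply Finset.sum_congr rfl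
      intro y _
      by_cases hxy : x = y
      · rw [if_pos hxy, if_pos hxy.symm]
      · rw [if_neg hxy, if_neg (Ne.symm hxy), Finset.erase_right_comm]

/-- order-reversing transport -/
theorem e_anti {β : Type*} [DecidableEq β] (r' : β → β → Prop) (φ : α → β) (s : Finset α)
    (hinj : Set.InjOn φ s) (hr : ∀ x ∈ s, ∀ y ∈ s, (r x y ↔ r' (φ y) (φ x))) :
    e r s = e r' (s.image φ) := by
  classical
  induction hn : s.card using Nat.strong_induction_on generalizing s with
  | _ n ih =>
    rw [e_rec, e_min r' (s.image φ)]
    congr 1
    · by_cases hs : s = ∅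
      · simp [hs]
      · rw [if_neg hs, if_neg]
        simpa using hs
    · have hm : mins r' (s.image φ) = (maxs r s).image φ := by
        ext y
        rw [mem_mins, Finset.mem_image, Finset.mem_image]
        constructor
        · rintro ⟨⟨x, hx, rfl⟩, h⟩
          refine ⟨x, ?_, rfl⟩
          rw [mem_maxs]
          refine ⟨hx, fun z hz hxz => ?_⟩
          exact h (φ z) (Finset.mem_image_of_mem _ hz) ((hr x hx z hz).1 hxz)
        · rintro ⟨x, hx, rfl⟩
          rw [mem_maxs] at hx
          refine ⟨⟨x, hx.1, rfl⟩, fun z hz hzx => ?_⟩
          obtain ⟨z', hz', rfl⟩ := Finset.mem_image.1 hz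
          exact hx.2 z' hz' ((hr x hx.1 z' hz').2 hzx)
      rw [hm, Finset.sum_image]
      · apply Finset.sum_congr rfl
        intro x hx
        have hxs := ((mem_maxs r).1 hx).1
        have hc := card_erase' hxs
        rw [ih (s.erase x).card (by omega) (s.erase x)
          (hinj.mono (by simpa using Finset.erase_subset x s))
          (fun y hy z hz => hr y (Finset.mem_of_mem_erase hy) z (Finset.mem_of_mem_erase hz)) rfl]
        congr 1
        ext y
        simp only [Finset.mem_image, Finset.mem_erase]
        constructor
        · rintro ⟨z, ⟨hzx, hz⟩, rfl⟩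
          exact ⟨fun h => hzx (hinj hz hxs h), z, hz, rfl⟩
        · rintro ⟨hne, z, hz, rfl⟩
          exact ⟨z, ⟨fun h => hne (by rw [h]), hz⟩, rfl⟩
      · intro x hx y hy hxy
        exact hinj ((mem_maxs r).1 hx).1 ((mem_maxs r).1 hy).1 hxy

open Classical in
/-- admissible down-sets for the cut at `c` -/
noncomputable def Adm (s : Finset α) (c : α) : Finset (Finset α) :=
  (s.erase c).powerset.filter (fun I => (∀ y ∈ I, ∀ x ∈ s, r x y → x ∈ I) ∧
    (∀ x ∈ s, r x c → x ∈ I))

theorem mem_Adm {s : Finset α} {c : α} {I : Finset α} : I ∈ Adm r s c ↔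
    I ⊆ s.erase c ∧ (∀ y ∈ I, ∀ x ∈ s, r x y → x ∈ I) ∧ (∀ x ∈ s, r x c → x ∈ I) := by
  simp [Adm]

theorem e_cut (s : Finset α) (c : α) (hc : c ∈ s) (hcc : ¬ r c c) :
    e r s = ∑ I ∈ Adm r s c, e r I * e r (s \ insert c I) := by
  classical
  induction hn : s.card using Nat.strong_induction_on generalizing s with
  | _ n ih =>
    have hne : s ≠ ∅ := by rintro rfl; simp at hc
    rw [e_rec, if_neg hne, zero_add]
    have hRHS : ∑ I ∈ Adm r s c, e r I * e r (s \ insert c I) =
        ∑ I ∈ Adm r s c, (if s \ insert c I = ∅ then e r I else 0) +
        ∑ I ∈ Adm r s c, ∑ x ∈ maxs r (s \ insert c I), e r I * e r ((s \ insert c I).erase x) := by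
      rw [← Finset.sum_add_distrib]
      apply Finset.sum_congr rfl
      intro I _
      rw [e_rec r (s \ insert c I), mul_add, Finset.mul_sum]
      congr 1
      split_ifs <;> simp
    rw [hRHS]
    -- maximal elements of the upper part
    have hmax : ∀ I ∈ Adm r s c, ∀ x, x ∈ maxs r (s \ insert c I) ↔
        (x ∈ maxs r s ∧ x ≠ c ∧ x ∉ I) := by
      intro I hI x
      rw [mem_Adm] at hI
      obtain ⟨hI1, hI2, hI3⟩ := hI
      rw [mem_maxs, mem_maxs]
      simp only [Finset.mem_sdiff, Finset.mem_insert, not_or]
      constructor
      · rintro ⟨⟨h1, h2, h3⟩, h4⟩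
        refine ⟨⟨h1, fun y hy hxy => ?_⟩, h2, h3⟩
        by_cases hyc : y = c
        · subst hyc
          exact h3 (hI3 x h1 hxy)
        · by_cases hyI : y ∈ I
          · exact h3 (hI2 y hyI x h1 hxy)
          · exact h4 y ⟨hy, hyc, hyI⟩ hxy
      · rintro ⟨⟨h1, h2⟩, h3, h4⟩
        exact ⟨⟨h1, h3, h4⟩, fun y hy => h2 y hy.1⟩
    have hsecond : ∑ I ∈ Adm r s c, ∑ x ∈ maxs r (s \ insert c I),
          e r I * e r ((s \ insert c I).erase x) =
        ∑ x ∈ (maxs r s).erase c, e r (s.erase x) := by
      have h1 : ∀ I ∈ Adm r s c, ∑ x ∈ maxs r (s \ insert c I),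
          e r I * e r ((s \ insert c I).erase x) =
          ∑ x ∈ (maxs r s).erase c, if x ∉ I then
            e r I * e r ((s \ insert c I).erase x) else 0 := by
        intro I hI
        rw [← Finset.sum_filter]
        apply Finset.sum_congr _ (fun _ _ => rfl)
        ext x
        rw [hmax I hI x]
        simp only [Finset.mem_filter, Finset.mem_erase]
        tauto
      rw [Finset.sum_congr rfl h1, Finset.sum_comm]
      apply Finset.sum_congr rfl
      intro x hx
      rw [Finset.mem_erase] at hx
      obtain ⟨hxc, hx⟩ := hx
      have hxs := ((mem_maxs r).1 hx).1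
      have hcard := card_erase' hxs
      rw [ih (s.erase x).card (by omega) (s.erase x) (by simp [hc, Ne.symm hxc]) rfl]
      rw [← Finset.sum_filter]
      apply Finset.sum_congr
      · ext I
        rw [Finset.mem_filter, mem_Adm, mem_Adm]
        constructor
        · rintro ⟨⟨h1, h2, h3⟩, h4⟩
          refine ⟨?_, ?_, ?_⟩
          · intro y hy
            have := h1 hy
            simp only [Finset.mem_erase] at this ⊢
            refine ⟨this.1, ?_, this.2⟩
            rintro rfl
            exact h4 hy
          · intro y hy z hz hzy
            exact h2 y hy z (Finset.mem_of_mem_erase hz) hzy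
          · intro z hz hzc
            exact h3 z (Finset.mem_of_mem_erase hz) hzc
        · rintro ⟨h1, h2, h3⟩
          refine ⟨⟨?_, ?_, ?_⟩, ?_⟩
          · intro y hy
            have := h1 hy
            simp only [Finset.mem_erase] at this ⊢
            exact ⟨this.1, this.2.2⟩
          · intro y hy z hz hzy
            by_cases hzx : z = x
            · subst hzx
              have := h1 hy
              simp only [Finset.mem_erase] at this
              exact absurd hzy (((mem_maxs r).1 hx).2 y this.2.2)
            · exact h2 y hy z (by simp [hzx, hz]) hzy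
          · intro z hz hzc
            by_cases hzx : z = x
            · subst hzx
              exact absurd hzc (((mem_maxs r).1 hx).2 c hc)
            · exact h3 z (by simp [hzx, hz]) hzc
          · intro hxI
            have := h1 hxI
            simp at this
      · intro I _
        congr 2
        ext y
        simp only [Finset.mem_erase, Finset.mem_sdiff, Finset.mem_insert]
        tauto
    have hfirst : ∑ I ∈ Adm r s c, (if s \ insert c I = ∅ then e r I else 0) =
        if c ∈ maxs r s then e r (s.erase c) else 0 := by
      have hcase : ∀ I ∈ Adm r s c, (s \ insert c I = ∅ ↔ I = s.erase c) := by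
        intro I hI
        rw [mem_Adm] at hI
        rw [Finset.sdiff_eq_empty_iff_subset]
        constructor
        · intro h
          apply Finset.Subset.antisymm hI.1
          intro y hy
          rw [Finset.mem_erase] at hy
          have := h hy.2
          rw [Finset.mem_insert] at this
          tauto
        · rintro rfl
          intro y hy
          by_cases hyc : y = c <;> simp [hyc, hy]
      have h1 : ∑ I ∈ Adm r s c, (if s \ insert c I = ∅ then e r I else 0) =
          ∑ I ∈ Adm r s c, (if I = s.erase c then e r I else 0) := by
        apply Finset.sum_congr rfl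
        intro I hI
        simp only [hcase I hI]
      rw [h1, Finset.sum_ite_eq']
      have h2 : s.erase c ∈ Adm r s c ↔ c ∈ maxs r s := by
        rw [mem_Adm, mem_maxs]
        constructor
        · rintro ⟨-, h, -⟩
          refine ⟨hc, fun y hy hcy => ?_⟩
          have hyc : y ≠ c := by
            rintro rfl
            exact hcc hcy
          have := h y (by simp [hyc, hy]) c hc hcy
          simp at this
        · rintro ⟨-, h⟩
          refine ⟨Finset.Subset.refl _, ?_, ?_⟩
          · intro y hy z hz hzy
            rw [Finset.mem_erase] at hy ⊢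
            refine ⟨?_, hz⟩
            rintro rfl
            exact h y hy.2 hzy
          · intro z hz hzc
            rw [Finset.mem_erase]
            refine ⟨?_, hz⟩
            rintro rfl
            exact hcc hzc
      simp only [h2]
    rw [hfirst, hsecond]
    by_cases hcm : c ∈ maxs r s
    · rw [if_pos hcm, Finset.add_sum_erase _ (fun x => e r (s.erase x)) hcm]
    · rw [if_neg hcm, zero_add, Finset.erase_eq_of_notMem hcm]

end Pool.Agent.Lib.MP_6a062b_co
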