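import Mathlib
import Pool.Agent.Lib.MP_6a062b_co.LinExt

namespace Pool.Agent.Lib.MP_6a062b_co

open Finset

/-- `y` is the right or lower neighbour of `x` (rows are counted downwards) -/
def adj (x y : ℕ × ℕ) : Prop := (y.1 = x.1 ∧ y.2 = x.2 + 1) ∨ (y.1 = x.1 + 1 ∧ y.2 = x.2)

/-- The Young diagram with rows `n - b` of length `ℓ b - b`. -/
def diag (n : ℕ) (ℓ : Fin n → ℕ) : Finset (ℕ × ℕ) :=
  Finset.univ.biUnion fun b : Fin n => (Finset.Icc 1 (ℓ b - b)).image (fun j => (n - (b : ℕ), j))

theorem mem_diag {n : ℕ} {ℓ : Fin n → ℕ} {x : ℕ × ℕ} :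
    x ∈ diag n ℓ ↔ ∃ b : Fin n, x.1 = n - (b : ℕ) ∧ 1 ≤ x.2 ∧ x.2 + b ≤ ℓ b := by
  simp only [diag, Finset.mem_biUnion, Finset.mem_univ, true_and, Finset.mem_image,
    Finset.mem_Icc]
  constructor
  · rintro ⟨b, j, ⟨h1, h2⟩, rfl⟩
    exact ⟨b, rfl, h1, by simp only; omega⟩
  · rintro ⟨b, h1, h2, h3⟩
    exact ⟨b, x.2, ⟨h2, by omega⟩, Prod.ext h1.symm rfl⟩

theorem le_of_strictMono {n : ℕ} {ℓ : Fin n → ℕ} (h : StrictMono ℓ) (b : Fin n) :
    (b : ℕ) ≤ ℓ b := by
  obtain ⟨b, hb⟩ := b
  induction b with
  | zero => simp
  | succ m ih =>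
    have h1 := ih (by omega)
    have h2 : ℓ ⟨m, by omega⟩ < ℓ ⟨m + 1, hb⟩ := h (by simp)
    simp only at h1 ⊢
    omega

theorem card_diag {n : ℕ} (ℓ : Fin n → ℕ) : (diag n ℓ).card = ∑ b, (ℓ b - b) := by
  rw [diag, Finset.card_biUnion]
  · apply Finset.sum_congr rfl
    intro b _
    rw [Finset.card_image_of_injective _ (by intro x y h; simpa using h)]
    simp
  · intro b _ b' _ hbb
    rw [Function.onFun, Finset.disjoint_left]
    intro x hx hx'
    simp only [Finset.mem_image, Finset.mem_Icc] at hx hx'
    obtain ⟨j, -, rfl⟩ := hx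
    obtain ⟨j', -, h⟩ := hx'
    apply hbb
    simp only [Prod.mk.injEq] at h
    apply Fin.ext
    have := b.2
    have := b'.2
    omega

/-- Vandermonde determinant -/
noncomputable def V {n : ℕ} (x : Fin n → ℚ) : ℚ := (Matrix.vandermonde x).det

theorem det_row_scale {n : ℕ} (M : Matrix (Fin n) (Fin n) ℚ) (d : Fin n → ℚ) :
    ∑ b, (M.updateRow b (fun j => M b j * d j)).det = (∑ j, d j) * M.det := by
  have h : ∀ b, (M.updateRow b (fun j => M b j * d j)).det =
      ∑ σ : Equiv.Perm (Fin n), (Equiv.Perm.sign σ : ℤ) * ((∏ i, M (σ i) i) * d (σ.symm b)) := by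
    intro b
    rw [Matrix.det_apply']
    apply Finset.sum_congr rfl
    intro σ _
    congr 1
    have h1 : ∀ i, (M.updateRow b (fun j => M b j * d j)) (σ i) i =
        M (σ i) i * (if i = σ.symm b then d (σ.symm b) else 1) := by
      intro i
      by_cases hi : i = σ.symm b
      · subst hi
        simp
      · have : σ i ≠ b := by
          intro h; apply hi; rw [← h]; simp
        rw [Matrix.updateRow_ne this, if_neg hi, mul_one]
    rw [Finset.prod_congr rfl (fun i _ => h1 i), Finset.prod_mul_distrib]
    congr 1
    simp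
  rw [Finset.sum_congr rfl (fun b _ => h b), Finset.sum_comm, Matrix.det_apply', Finset.mul_sum]
  apply Finset.sum_congr rfl
  intro σ _
  rw [← Finset.mul_sum, ← Finset.mul_sum]
  rw [Equiv.sum_comp σ.symm d]
  ring

theorem V_eq {n : ℕ} (x : Fin n → ℚ) :
    V x = (Matrix.of (fun i j : Fin n => (descPochhammer ℚ j).eval (x i))).det := by
  rw [V]
  exact Matrix.det_eval_matrixOfPolynomials_eq_det_vandermonde x (fun j => descPochhammer ℚ j)
    (fun j => descPochhammer_natDegree _ _) (fun j => monic_descPochhammer ℚ _)

theorem V_shift {n : ℕ} (x : Fin n → ℚ) :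
    ∑ b, x b * V (Function.update x b (x b - 1)) = (∑ b, x b - ∑ b : Fin n, (b : ℚ)) * V x := by
  have h : ∀ b, x b * V (Function.update x b (x b - 1)) =
      x b * V x - ((Matrix.of (fun i j : Fin n => (descPochhammer ℚ j).eval (x i))).updateRow b
        (fun j => (Matrix.of (fun i j : Fin n => (descPochhammer ℚ j).eval (x i))) b j *
          (j : ℚ))).det := by
    intro b
    set M := (Matrix.of (fun i j : Fin n => (descPochhammer ℚ j).eval (x i))) with hM
    have h1 : V (Function.update x b (x b - 1)) =
        (M.updateRow b (fun j => (descPochhammer ℚ j).eval (x b - 1))).det := by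
      rw [V_eq]
      congr 1
      ext i j
      by_cases hi : i = b
      · subst hi
        simp
      · rw [Matrix.updateRow_ne hi]
        simp [hM, Function.update_of_ne hi]
    have h2 : x b * (M.updateRow b (fun j => (descPochhammer ℚ j).eval (x b - 1))).det =
        (M.updateRow b (fun j => M b j * (x b - j))).det := by
      rw [← Matrix.det_updateRow_smul]
      congr 2
      funext j
      have h3 : x b * (descPochhammer ℚ j).eval (x b - 1) =
          (descPochhammer ℚ ((j : ℕ) + 1)).eval (x b) := by
        rw [descPochhammer_succ_left]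
        simp
      have h4 : (descPochhammer ℚ ((j : ℕ) + 1)).eval (x b) =
          (descPochhammer ℚ j).eval (x b) * (x b - j) := by
        rw [descPochhammer_succ_right]
        simp
      simp only [Pi.smul_apply, smul_eq_mul]
      rw [h3, h4]
      simp [hM]
    have h3 : (fun j : Fin n => M b j * (x b - j)) =
        x b • M b + (-1 : ℚ) • (fun j : Fin n => M b j * (j : ℚ)) := by
      funext j
      simp
      ring
    rw [h1, h2, h3, Matrix.det_updateRow_add, Matrix.det_updateRow_smul,
      Matrix.det_updateRow_smul, Matrix.updateRow_eq_self, V_eq]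
    ring
  rw [Finset.sum_congr rfl (fun b _ => h b), Finset.sum_sub_distrib, det_row_scale,
    ← Finset.sum_mul, ← V_eq]
  ring

theorem V_eq_zero {n : ℕ} (x : Fin n → ℚ) {a b : Fin n} (hab : a ≠ b) (h : x a = x b) :
    V x = 0 := by
  rw [V, Matrix.det_vandermonde_eq_zero_iff]
  exact ⟨a, b, h, hab⟩

theorem V_id (n : ℕ) : V (fun b : Fin n => (b : ℚ)) = ∏ b : Fin n, ((b : ℕ).factorial : ℚ) := by
  rw [V_eq, Matrix.det_of_isLowerTriangular]
  · apply Finset.prod_congr rfl
    intro b _
    simp [Matrix.of_apply, descPochhammer_eval_eq_descFactorial, Nat.descFactorial_self]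
  · intro i j hij
    simp only [Matrix.of_apply]
    have : (i : ℕ) < j := by simpa using hij
    rw [descPochhammer_eval_eq_descFactorial, Nat.descFactorial_eq_zero_iff_lt.2 this]
    simp

open Classical in
theorem maxs_diag {n : ℕ} {ℓ : Fin n → ℕ} (h : StrictMono ℓ) :
    maxs adj (diag n ℓ) = (Finset.univ.filter (fun b : Fin n =>
      StrictMono (Function.update ℓ b (ℓ b - 1)) ∧ 1 ≤ ℓ b)).image
        (fun b : Fin n => (n - (b : ℕ), ℓ b - (b : ℕ))) := by
  ext x
  rw [mem_maxs, Finset.mem_image]
  simp only [Finset.mem_filter, Finset.mem_univ, true_and]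
  constructor
  · rintro ⟨hx, hmax⟩
    obtain ⟨b, h1, h2, h3⟩ := mem_diag.1 hx
    have h4 : x.2 + b = ℓ b := by
      by_contra hne
      apply hmax (x.1, x.2 + 1) _ (Or.inl ⟨rfl, rfl⟩)
      rw [mem_diag]
      exact ⟨b, h1, by simp only; omega, by simp only; omega⟩
    refine ⟨b, ⟨?_, by omega⟩, Prod.ext h1.symm (by simp only; omega)⟩
    intro a c hac
    by_cases hcb : c = b
    · subst hcb
      rw [Function.update_self, Function.update_of_ne hac.ne]
      have h5 := h hac
      by_contra hlt
      have h6 : ℓ a = ℓ c - 1 := by omega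
      have hac' : (a : ℕ) < c := hac
      have h7 : (a : ℕ) + 1 = c := by
        by_contra hne
        have h8 : (a : ℕ) + 1 < c := by omega
        have h9 : ℓ a < ℓ ⟨(a : ℕ) + 1, by have := c.2; omega⟩ := h (by
          rw [Fin.lt_def]; simp)
        have h10 : ℓ ⟨(a : ℕ) + 1, by have := c.2; omega⟩ < ℓ c := h (by
          rw [Fin.lt_def]; exact h8)
        omega
      apply hmax (x.1 + 1, x.2) _ (Or.inr ⟨rfl, rfl⟩)
      rw [mem_diag]
      have := c.2
      exact ⟨a, by simp only; omega, by simp only; omega, by simp only; omega⟩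
    · by_cases hab : a = b
      · subst hab
        rw [Function.update_self, Function.update_of_ne hcb]
        have := h hac
        omega
      · rw [Function.update_of_ne hab, Function.update_of_ne hcb]
        exact h hac
  · rintro ⟨b, ⟨h1, h2⟩, rfl⟩
    have h3 := le_of_strictMono h1 b
    rw [Function.update_self] at h3
    have hb := b.2
    refine ⟨mem_diag.2 ⟨b, rfl, by simp only; omega, by simp only; omega⟩, ?_⟩
    rintro ⟨i, j⟩ hy hadj
    obtain ⟨b', h4, h5, h6⟩ := mem_diag.1 hy
    have hb' := b'.2
    simp only at h4 h5 h6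
    rcases hadj with ⟨h7, h8⟩ | ⟨h7, h8⟩
    · simp only at h7 h8
      have : b' = b := Fin.ext (by omega)
      subst this
      omega
    · simp only at h7 h8
      have hlt : b' < b := by rw [Fin.lt_def]; omega
      have h9 := h1 hlt
      rw [Function.update_self, Function.update_of_ne hlt.ne] at h9
      omega

theorem diag_update {n : ℕ} {ℓ : Fin n → ℕ} {b : Fin n}
    (h1 : StrictMono (Function.update ℓ b (ℓ b - 1))) (h2 : 1 ≤ ℓ b) :
    (diag n ℓ).erase (n - (b : ℕ), ℓ b - (b : ℕ)) =
      diag n (Function.update ℓ b (ℓ b - 1)) := by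
  have h3 := le_of_strictMono h1 b
  rw [Function.update_self] at h3
  have hb := b.2
  ext ⟨i, j⟩
  rw [Finset.mem_erase, mem_diag, mem_diag]
  simp only
  constructor
  · rintro ⟨hne, b', h4, h5, h6⟩
    refine ⟨b', h4, h5, ?_⟩
    by_cases hbb : b' = b
    · subst hbb
      rw [Function.update_self]
      have : j ≠ ℓ b' - b' := by
        rintro rfl
        exact hne (Prod.ext h4 rfl)
      omega
    · rw [Function.update_of_ne hbb]
      exact h6
  · rintro ⟨b', h4, h5, h6⟩
    by_cases hbb : b' = b
    · subst hbb
      rw [Function.update_self] at h6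
      refine ⟨?_, b', h4, h5, by omega⟩
      intro h
      simp only [Prod.mk.injEq] at h
      omega
    · rw [Function.update_of_ne hbb] at h6
      refine ⟨?_, b', h4, h5, h6⟩
      intro h
      simp only [Prod.mk.injEq] at h
      apply hbb
      apply Fin.ext
      have := b'.2
      omega

/-- Frobenius formula -/
theorem e_diag {n : ℕ} (ℓ : Fin n → ℕ) (h : StrictMono ℓ) :
    (e adj (diag n ℓ) : ℚ) =
      ((diag n ℓ).card.factorial : ℚ) * V (fun b => (ℓ b : ℚ)) / ∏ b, ((ℓ b).factorial : ℚ) := by
  classical
  induction hm : (diag n ℓ).card generalizing ℓ with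
  | zero =>
    have hd : diag n ℓ = ∅ := Finset.card_eq_zero.1 hm
    rw [hd, e_empty]
    have hl : ∀ b, ℓ b = b := by
      intro b
      rw [card_diag, Finset.sum_eq_zero_iff] at hm
      have := hm b (Finset.mem_univ _)
      have := le_of_strictMono h b
      omega
    simp only [hl, V_id]
    have : (∏ b : Fin n, ((b : ℕ).factorial : ℚ)) ≠ 0 :=
      Finset.prod_ne_zero_iff.2 (fun b _ => by exact_mod_cast Nat.factorial_ne_zero _)
    simp [this]
  | succ m ih =>
    have hne : diag n ℓ ≠ ∅ := by
      intro h0
      rw [h0] at hm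
      simp at hm
    rw [e_rec, if_neg hne, zero_add, maxs_diag h, Finset.sum_image, Nat.cast_sum]
    · have hterm : ∀ b ∈ Finset.univ.filter (fun b : Fin n =>
          StrictMono (Function.update ℓ b (ℓ b - 1)) ∧ 1 ≤ ℓ b),
          (e adj ((diag n ℓ).erase (n - (b : ℕ), ℓ b - (b : ℕ))) : ℚ) =
          (m.factorial : ℚ) / (∏ b, ((ℓ b).factorial : ℚ)) *
            ((ℓ b : ℚ) * V (Function.update (fun b => (ℓ b : ℚ)) b ((ℓ b : ℚ) - 1))) := by
        intro b hb
        simp only [Finset.mem_filter, Finset.mem_univ, true_and] at hb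
        obtain ⟨h1, h2⟩ := hb
        have hb' := b.2
        have h3 := le_of_strictMono h1 b
        rw [Function.update_self] at h3
        have hmem : (n - (b : ℕ), ℓ b - (b : ℕ)) ∈ diag n ℓ :=
          mem_diag.2 ⟨b, rfl, by simp only; omega, by simp only; omega⟩
        have hcard : (diag n (Function.update ℓ b (ℓ b - 1))).card = m := by
          rw [← diag_update h1 h2, Finset.card_erase_of_mem hmem, hm]
          rfl
        rw [diag_update h1 h2, ih _ h1 hcard]
        have e1 : (fun b' => ((Function.update ℓ b (ℓ b - 1) b' : ℕ) : ℚ)) =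
            Function.update (fun b => (ℓ b : ℚ)) b ((ℓ b : ℚ) - 1) := by
          funext b'
          by_cases hbb : b' = b
          · subst hbb
            simp [Nat.cast_sub h2]
          · simp [Function.update_of_ne hbb]
        have e2 : (∏ b', ((ℓ b').factorial : ℚ)) =
            (ℓ b : ℚ) * ∏ b', ((Function.update ℓ b (ℓ b - 1) b').factorial : ℚ) := by
          rw [← Finset.mul_prod_erase _ _ (Finset.mem_univ b),
            ← Finset.mul_prod_erase _ (fun b' => ((Function.update ℓ b (ℓ b - 1) b').factorial : ℚ))
              (Finset.mem_univ b)]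
          rw [Function.update_self, ← mul_assoc]
          congr 1
          · obtain ⟨c, hc⟩ : ∃ c, ℓ b = c + 1 := ⟨ℓ b - 1, by omega⟩
            rw [hc, Nat.add_sub_cancel, Nat.factorial_succ]
            push_cast
            ring
          · apply Finset.prod_congr rfl
            intro b' hb''
            rw [Function.update_of_ne (Finset.ne_of_mem_erase hb'')]
        have e3 : (∏ b', ((Function.update ℓ b (ℓ b - 1) b').factorial : ℚ)) ≠ 0 :=
          Finset.prod_ne_zero_iff.2 (fun b _ => by exact_mod_cast Nat.factorial_ne_zero _)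
        have e4 : (ℓ b : ℚ) ≠ 0 := by
          have : ℓ b ≠ 0 := by omega
          exact_mod_cast this
        rw [e1, e2]
        field_simp
      rw [Finset.sum_congr rfl hterm, ← Finset.mul_sum]
      have hext : ∑ b ∈ Finset.univ.filter (fun b : Fin n =>
          StrictMono (Function.update ℓ b (ℓ b - 1)) ∧ 1 ≤ ℓ b),
          ((ℓ b : ℚ) * V (Function.update (fun b => (ℓ b : ℚ)) b ((ℓ b : ℚ) - 1))) =
          ∑ b, ((ℓ b : ℚ) * V (Function.update (fun b => (ℓ b : ℚ)) b ((ℓ b : ℚ) - 1))) := by
        apply Finset.sum_subset (Finset.filter_subset _ _)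
        intro b _ hb
        simp only [Finset.mem_filter, Finset.mem_univ, true_and, not_and] at hb
        by_cases hl0 : ℓ b = 0
        · rw [hl0]; simp
        · have hns : ¬ StrictMono (Function.update ℓ b (ℓ b - 1)) := by
            intro h1
            exact hb h1 (by omega)
          have : ∃ a, a < b ∧ ℓ a = ℓ b - 1 := by
            by_contra hcon
            push_neg at hcon
            apply hns
            intro a c hac
            by_cases hcb : c = b
            · subst hcb
              rw [Function.update_self, Function.update_of_ne hac.ne]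
              have h5 := h hac
              have h6 := hcon a hac
              omega
            · by_cases hab : a = b
              · subst hab
                rw [Function.update_self, Function.update_of_ne hcb]
                have := h hac
                omega
              · rw [Function.update_of_ne hab, Function.update_of_ne hcb]
                exact h hac
          obtain ⟨a, hab, hla⟩ := this
          rw [V_eq_zero _ hab.ne, mul_zero]
          rw [Function.update_self, Function.update_of_ne hab.ne, hla, Nat.cast_sub (by omega)]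
          simp
      rw [hext, V_shift]
      have hsum : (∑ b, (ℓ b : ℚ) - ∑ b : Fin n, ((b : ℕ) : ℚ)) = (m : ℚ) + 1 := by
        rw [← Finset.sum_sub_distrib]
        have : ((∑ b : Fin n, (ℓ b - b) : ℕ) : ℚ) = (m : ℚ) + 1 := by
          rw [← card_diag, hm]
          push_cast
          rfl
        rw [← this]
        push_cast
        apply Finset.sum_congr rfl
        intro b _
        rw [Nat.cast_sub (le_of_strictMono h b)]
      rw [hsum, Nat.factorial_succ]
      push_cast
      ring
    · intro b hb b' hb' heq
      simp only [Prod.mk.injEq] at heq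
      apply Fin.ext
      have := b.2
      have := b'.2
      omega

end Pool.Agent.Lib.MP_6a062b_co
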