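import Mathlib
import Pool.Agent.Lib.MP_6a062b_co.YoungDet

namespace Pool.Agent.Lib.MP_6a062b_co

open Finset

/-- The square of side `k+2` with the two last cells of the first row removed. -/
def D (k : ℕ) : Finset (ℕ × ℕ) :=
  (Finset.Icc 1 (k + 2) ×ˢ Finset.Icc 1 (k + 2)) \ {(1, k + 1), (1, k + 2)}

theorem mem_D {k : ℕ} {x : ℕ × ℕ} : x ∈ D k ↔
    (1 ≤ x.1 ∧ x.1 ≤ k + 2 ∧ 1 ≤ x.2 ∧ x.2 ≤ k + 2) ∧ (x.1 = 1 → x.2 ≤ k) := by
  obtain ⟨i, j⟩ := x
  simp only [D, Finset.mem_sdiff, Finset.mem_product, Finset.mem_Icc, Finset.mem_insert,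
    Finset.mem_singleton, Prod.mk.injEq, not_or, not_and]
  constructor
  · rintro ⟨⟨⟨h1, h2⟩, h3, h4⟩, h5, h6⟩
    refine ⟨⟨h1, h2, h3, h4⟩, fun h => ?_⟩
    have := h5 h
    have := h6 h
    omega
  · rintro ⟨⟨h1, h2, h3, h4⟩, h5⟩
    refine ⟨⟨⟨h1, h2⟩, h3, h4⟩, fun h => ?_, fun h => ?_⟩
    · have := h5 h; omega
    · have := h5 h; omega

theorem card_D (k : ℕ) : (D k).card + 2 = (k + 2) * (k + 2) := by
  have h : ({(1, k + 1), (1, k + 2)} : Finset (ℕ × ℕ)) ⊆
      Finset.Icc 1 (k + 2) ×ˢ Finset.Icc 1 (k + 2) := by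
    intro x hx
    simp only [Finset.mem_insert, Finset.mem_singleton] at hx
    rcases hx with rfl | rfl <;> simp
  have h2 : ({(1, k + 1), (1, k + 2)} : Finset (ℕ × ℕ)).card = 2 := by
    rw [Finset.card_pair]
    simp
  have h3 := Finset.card_sdiff_add_card_eq_card h
  rw [h2] at h3
  rw [D, h3, Finset.card_product]
  simp

/-- `ℓ` continued by `2k, 2k+1` -/
def extl {k : ℕ} (ℓ : Fin k → ℕ) : Fin (k + 2) → ℕ :=
  fun b => if h : (b : ℕ) < k then ℓ ⟨b, h⟩ else k + b

/-- the complementary sequence -/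
def low {k : ℕ} (ℓ : Fin k → ℕ) : Fin (k + 1) → ℕ :=
  fun b => if h : (b : ℕ) = 0 then 1 else 2 * k + 2 - ℓ ⟨k - b, by have := b.2; omega⟩

theorem extl_strictMono {k : ℕ} {ℓ : Fin k → ℕ} (h : StrictMono ℓ) (hl : ∀ b, ℓ b < 2 * k) :
    StrictMono (extl ℓ) := by
  intro a b hab
  have hab' : (a : ℕ) < b := hab
  simp only [extl]
  split_ifs with h1 h2
  · exact h (by rw [Fin.lt_def]; exact hab')
  · have := hl ⟨a, h1⟩
    omega
  · omega
  · omega

theorem low_strictMono {k : ℕ} {ℓ : Fin k → ℕ} (h : StrictMono ℓ) (hl : ∀ b, ℓ b < 2 * k) :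
    StrictMono (low ℓ) := by
  intro a b hab
  have hab' : (a : ℕ) < b := hab
  have hb := b.2
  simp only [low]
  split_ifs with h1 h2
  · omega
  · have := hl ⟨k - b, by omega⟩
    omega
  · omega
  · have h3 : ℓ ⟨k - b, by omega⟩ < ℓ ⟨k - a, by omega⟩ := h (by
      rw [Fin.lt_def]; simp only; omega)
    have := hl ⟨k - a, by omega⟩
    omega

theorem mem_diag_extl {k : ℕ} {ℓ : Fin k → ℕ} {x : ℕ × ℕ} : x ∈ diag (k + 2) (extl ℓ) ↔
    (1 ≤ x.2 ∧ x.2 ≤ k ∧ (x.1 = 1 ∨ x.1 = 2)) ∨
    (∃ b : Fin k, x.1 = k + 2 - (b : ℕ) ∧ 1 ≤ x.2 ∧ x.2 + b ≤ ℓ b) := by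
  rw [mem_diag]
  constructor
  · rintro ⟨b, h1, h2, h3⟩
    have hb := b.2
    simp only [extl] at h3
    split_ifs at h3 with h4
    · right
      exact ⟨⟨b, h4⟩, h1, h2, h3⟩
    · left
      omega
  · rintro (⟨h1, h2, h3⟩ | ⟨b, h1, h2, h3⟩)
    · rcases h3 with h3 | h3
      · refine ⟨⟨k + 1, by omega⟩, by simp only; omega, h1, ?_⟩
        simp only [extl]
        rw [dif_neg (by omega)]
        omega
      · refine ⟨⟨k, by omega⟩, by simp only; omega, h1, ?_⟩
        simp only [extl]
        rw [dif_neg (by omega)]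
        omega
    · refine ⟨⟨b, by have := b.2; omega⟩, h1, h2, ?_⟩
      simp only [extl]
      rw [dif_pos b.2]
      exact h3

theorem Adm_eq {k : ℕ} (hk : 1 ≤ k) : Adm adj (D k) (2, k + 1) =
    (Finset.univ.filter (fun ℓ : Fin k → Fin (2 * k) => StrictMono ℓ)).image
      (fun ℓ => diag (k + 2) (extl (fun b => (ℓ b : ℕ)))) := by
  classical
  ext I
  rw [mem_Adm, Finset.mem_image]
  simp only [Finset.mem_filter, Finset.mem_univ, true_and]
  constructor
  · rintro ⟨h1, h2, h3⟩
    -- row lengths
    have hD : ∀ x ∈ I, x ∈ D k ∧ x ≠ (2, k + 1) := by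
      intro x hx
      have := h1 hx
      rw [Finset.mem_erase] at this
      exact ⟨this.2, this.1⟩
    have hleft : ∀ m i j, (i, j + m) ∈ I → 1 ≤ j → (i, j) ∈ I := by
      intro m
      induction m with
      | zero => intro i j h _; simpa using h
      | succ m ih =>
        intro i j h hj
        apply ih i j _ hj
        apply h2 (i, j + (m + 1)) h (i, j + m) _ (Or.inl ⟨rfl, rfl⟩)
        have h4 := (mem_D.1 (hD _ h).1)
        rw [mem_D]
        simp only at h4 ⊢
        omega
    have hc : ∀ i, 2 ≤ i → (i, k + 1) ∉ I := by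
      intro i hi
      induction i, hi using Nat.le_induction with
      | base => intro h; exact (hD _ h).2 rfl
      | succ i hi ih =>
        intro h
        apply ih
        apply h2 (i + 1, k + 1) h (i, k + 1) _ (Or.inr ⟨rfl, rfl⟩)
        have h4 := (mem_D.1 (hD _ h).1)
        rw [mem_D]
        simp only at h4 ⊢
        omega
    have hjk : ∀ i j, (i, j) ∈ I → j ≤ k := by
      intro i j h
      by_contra hlt
      have h4 := (mem_D.1 (hD _ h).1)
      simp only at h4
      by_cases hi : i = 1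
      · have := h4.2 hi
        omega
      · apply hc i (by omega)
        apply hleft (j - (k + 1)) i (k + 1) _ (by omega)
        rwa [show k + 1 + (j - (k + 1)) = j by omega]
    have hup : ∀ i j, 1 ≤ i → (i + 1, j) ∈ I → (i, j) ∈ I := by
      intro i j hi h
      apply h2 (i + 1, j) h (i, j) _ (Or.inr ⟨rfl, rfl⟩)
      have h4 := (mem_D.1 (hD _ h).1)
      have h5 := hjk _ _ h
      rw [mem_D]
      simp only at h4 ⊢
      omega
    have h2k : (2, k) ∈ I := by
      apply h3 (2, k) _ (Or.inl ⟨rfl, rfl⟩)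
      rw [mem_D]
      simp only
      omega
    set rl : ℕ → ℕ := fun i => (I.filter (fun x => x.1 = i)).sup (fun x => x.2) with hrl
    have hmem : ∀ i j, (i, j) ∈ I ↔ 1 ≤ j ∧ j ≤ rl i := by
      intro i j
      constructor
      · intro h
        have h4 := (mem_D.1 (hD _ h).1)
        simp only at h4
        refine ⟨h4.1.2.2.1, ?_⟩
        exact Finset.le_sup (f := fun x : ℕ × ℕ => x.2) (show (i, j) ∈ I.filter (fun x => x.1 = i) by
          simp [h])
      · rintro ⟨hj1, hj2⟩
        rw [hrl] at hj2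
        simp only at hj2
        rw [Finset.le_sup_iff (by simp only [Nat.bot_eq_zero]; omega)] at hj2
        obtain ⟨⟨i', j'⟩, hx, hj3⟩ := hj2
        simp only [Finset.mem_filter] at hx
        obtain ⟨hx, rfl⟩ := hx
        apply hleft (j' - j) i' j _ hj1
        simp only at hj3
        rwa [show j + (j' - j) = j' by omega]
    have hrlk : ∀ i, rl i ≤ k := by
      intro i
      by_cases h0 : rl i = 0
      · omega
      · exact hjk i (rl i) ((hmem i (rl i)).2 ⟨by omega, le_refl _⟩)
    have hrl1 : ∀ i, 1 ≤ i → rl (i + 1) ≤ rl i := by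
      intro i hi
      by_cases h0 : rl (i + 1) = 0
      · omega
      · exact ((hmem i (rl (i + 1))).1 (hup i _ hi
          ((hmem (i + 1) (rl (i + 1))).2 ⟨by omega, le_refl _⟩))).2
    have hrl2 : ∀ m i, 1 ≤ i → rl (i + m) ≤ rl i := by
      intro m
      induction m with
      | zero => intro i _; simp
      | succ m ih =>
        intro i hi
        have := hrl1 (i + m) (by omega)
        have := ih i hi
        rw [← add_assoc]
        omega
    refine ⟨fun b => ⟨rl (k + 2 - b) + b, ?_⟩, ?_, ?_⟩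
    · have := hrlk (k + 2 - b)
      have := b.2
      omega
    · intro a b hab
      have hab' : (a : ℕ) < b := hab
      have hb := b.2
      rw [Fin.lt_def]
      simp only
      have := hrl2 (b - a) (k + 2 - b) (by omega)
      rw [show k + 2 - (b : ℕ) + (b - a) = k + 2 - a by omega] at this
      omega
    · ext ⟨i, j⟩
      rw [mem_diag_extl]
      simp only
      constructor
      · rintro (⟨h4, h5, h6⟩ | ⟨b, h4, h5, h6⟩)
        · have h7 : (2, j) ∈ I := by
            apply hleft (k - j) 2 j _ h4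
            rwa [show j + (k - j) = k by omega]
          rcases h6 with rfl | rfl
          · exact hup 1 j (le_refl _) h7
          · exact h7
        · rw [h4, hmem]
          exact ⟨h5, by omega⟩
      · intro h
        have h4 := (mem_D.1 (hD _ h).1)
        simp only at h4
        by_cases hi : i ≤ 2
        · left
          have := hjk _ _ h
          omega
        · right
          refine ⟨⟨k + 2 - i, by omega⟩, by simp only; omega, h4.1.2.2.1, ?_⟩
          simp only
          rw [show k + 2 - (k + 2 - i) = i by omega]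
          have := ((hmem i j).1 h).2
          omega
  · rintro ⟨ℓ, hℓ, rfl⟩
    have hsm : StrictMono (fun b => (ℓ b : ℕ)) := fun a b hab => hℓ hab
    have hlt : ∀ b, (fun b => (ℓ b : ℕ)) b < 2 * k := fun b => (ℓ b).2
    have hle : ∀ b : Fin k, (b : ℕ) ≤ (ℓ b : ℕ) := fun b => le_of_strictMono hsm b
    have hub : ∀ b : Fin k, (ℓ b : ℕ) ≤ k + b := by
      -- from strict monotonicity of the extension
      intro b
      have h1 := extl_strictMono hsm hlt
      have h2 : ∀ m (c : Fin (k + 2)), (c : ℕ) + m = k →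
          extl (fun b => (ℓ b : ℕ)) c + m ≤ 2 * k := by
        intro m
        induction m with
        | zero =>
          intro c hc
          simp only [extl]
          rw [dif_neg (by omega)]
          omega
        | succ m ih =>
          intro c hc
          have h3 := ih ⟨c + 1, by omega⟩ (by simp only; omega)
          have h4 : extl (fun b => (ℓ b : ℕ)) c <
            extl (fun b => (ℓ b : ℕ)) ⟨c + 1, by omega⟩ := h1 (by rw [Fin.lt_def]; simp)
          omega
      have hb := b.2
      have h5 := h2 (k - b) ⟨b, by omega⟩ (by simp only; omega)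
      simp only [extl] at h5
      rw [dif_pos hb] at h5
      simp only [Fin.eta] at h5
      omega
    refine ⟨?_, ?_, ?_⟩
    · intro x hx
      obtain ⟨i, j⟩ := x
      rw [mem_diag_extl] at hx
      simp only at hx
      rw [Finset.mem_erase, mem_D]
      simp only [ne_eq, Prod.mk.injEq]
      rcases hx with ⟨h1, h2, h3⟩ | ⟨b, h1, h2, h3⟩
      · omega
      · have := hub b
        have := b.2
        omega
    · rintro ⟨i, j⟩ hx ⟨i', j'⟩ hy hadj
      rw [mem_diag_extl] at hx ⊢
      rw [mem_D] at hy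
      simp only at hx hy ⊢
      simp only [adj] at hadj
      rcases hx with ⟨h1, h2, h3⟩ | ⟨b, h1, h2, h3⟩
      · left; omega
      · have hb := b.2
        have hb2 := hub b
        rcases hadj with ⟨h4, h5⟩ | ⟨h4, h5⟩
        · right
          exact ⟨b, by omega, by omega, by omega⟩
        · by_cases hbk : (b : ℕ) + 1 < k
          · right
            refine ⟨⟨b + 1, hbk⟩, by simp only; omega, by omega, ?_⟩
            have h6 : (ℓ b : ℕ) < ℓ ⟨b + 1, hbk⟩ := hsm (by rw [Fin.lt_def]; simp)
            simp only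
            omega
          · left
            omega
    · rintro ⟨i', j'⟩ hy hadj
      rw [mem_diag_extl]
      rw [mem_D] at hy
      simp only at hy ⊢
      simp only [adj] at hadj
      left
      omega

theorem diag_extl_inj {k : ℕ} {ℓ ℓ' : Fin k → ℕ} (h : StrictMono ℓ) (h' : StrictMono ℓ')
    (heq : diag (k + 2) (extl ℓ) = diag (k + 2) (extl ℓ')) : ℓ = ℓ' := by
  have key : ∀ (m m' : Fin k → ℕ), StrictMono m → StrictMono m' →
      diag (k + 2) (extl m) = diag (k + 2) (extl m') → ∀ b, m b ≤ m' b := by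
    intro m m' hm hm' he b
    have h1 := le_of_strictMono hm b
    have h2 := le_of_strictMono hm' b
    have hb := b.2
    by_cases h0 : m b = b
    · omega
    · have h3 : (k + 2 - (b : ℕ), m b - (b : ℕ)) ∈ diag (k + 2) (extl m) := by
        rw [mem_diag_extl]
        right
        exact ⟨b, rfl, by simp only; omega, by simp only; omega⟩
      rw [he, mem_diag_extl] at h3
      simp only at h3
      rcases h3 with ⟨h4, h5, h6⟩ | ⟨b', h4, h5, h6⟩
      · omega
      · have hb' := b'.2
        have : b' = b := Fin.ext (by omega)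
        subst this
        omega
  funext b
  exact le_antisymm (key ℓ ℓ' h h' heq b) (key ℓ' ℓ h' h heq.symm b)

theorem upper_eq {k : ℕ} {ℓ : Fin k → ℕ} (h : StrictMono ℓ) (hl : ∀ b, ℓ b < 2 * k) :
    (D k \ insert (2, k + 1) (diag (k + 2) (extl ℓ))).image
      (fun x => (k + 3 - x.1, k + 3 - x.2)) = diag (k + 1) (low ℓ) := by
  ext ⟨i, j⟩
  rw [Finset.mem_image, mem_diag]
  constructor
  · rintro ⟨⟨i', j'⟩, hx, heq⟩
    simp only [Prod.mk.injEq] at heq
    rw [Finset.mem_sdiff, Finset.mem_insert, mem_D, not_or, mem_diag_extl] at hx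
    simp only [Prod.mk.injEq, not_or, not_exists] at hx
    obtain ⟨⟨h1, h2⟩, h3, h4, h5⟩ := hx
    by_cases hi : i' = 2
    · refine ⟨0, ?_, ?_, ?_⟩
      · simp only [Fin.val_zero]; omega
      · simp only; omega
      · simp only [low]
        rw [dif_pos (by simp)]
        simp only [Fin.val_zero]
        omega
    · have hi3 : 3 ≤ i' := by omega
      have h6 := h5 ⟨k + 2 - i', by omega⟩
      simp only at h6
      refine ⟨⟨i' - 2, by omega⟩, by simp only; omega, by simp only; omega, ?_⟩
      simp only [low]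
      rw [dif_neg (by omega)]
      have h7 : ∀ (q : ℕ) (hq : q < k), q = k + 2 - i' → ℓ ⟨q, hq⟩ < j' + (k + 2 - i') := by
        rintro q hq rfl
        by_contra hcon
        exact h6 ⟨by omega, by omega, by omega⟩
      have h8 := h7 (k - (i' - 2)) (by omega) (by omega)
      omega
  · rintro ⟨b, h1, h2, h3⟩
    simp only at h1 h2 h3
    have hb := b.2
    refine ⟨(k + 3 - i, k + 3 - j), ?_, ?_⟩
    · rw [Finset.mem_sdiff, Finset.mem_insert, mem_D, not_or, mem_diag_extl]
      simp only [Prod.mk.injEq, not_or, not_exists]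
      simp only [low] at h3
      split_ifs at h3 with h4
      · refine ⟨by omega, by omega, by omega, ?_⟩
        intro c hc
        have := c.2
        omega
      · have h5 := hl ⟨k - b, by omega⟩
        have h9 := le_of_strictMono h ⟨k - b, by omega⟩
        simp only at h9
        refine ⟨by omega, by omega, by omega, ?_⟩
        rintro c ⟨hc1, hc2, hc3⟩
        have hc := c.2
        have h7 : (c : ℕ) = k - b := by omega
        have h6 : c = ⟨k - b, by omega⟩ := Fin.ext h7
        have h8 := congrArg ℓ h6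
        omega
    · simp only [Prod.mk.injEq]
      simp only [low] at h3
      split_ifs at h3 with h4
      · omega
      · have h9 := le_of_strictMono h ⟨k - b, by omega⟩
        simp only at h9
        omega

theorem e_upper {k : ℕ} {ℓ : Fin k → ℕ} (h : StrictMono ℓ) (hl : ∀ b, ℓ b < 2 * k) :
    e adj (D k \ insert (2, k + 1) (diag (k + 2) (extl ℓ))) = e adj (diag (k + 1) (low ℓ)) := by
  rw [← upper_eq h hl]
  apply e_anti
  · rintro ⟨i, j⟩ hx ⟨i', j'⟩ hy heq
    simp only [Finset.coe_sdiff, Set.mem_sdiff, Finset.mem_coe, mem_D] at hx hy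
    simp only [Prod.mk.injEq] at heq ⊢
    omega
  · rintro ⟨i, j⟩ hx ⟨i', j'⟩ hy
    simp only [Finset.mem_sdiff, mem_D] at hx hy
    simp only [adj]
    omega

theorem e_D_sum {k : ℕ} (hk : 1 ≤ k) : e adj (D k) =
    ∑ ℓ ∈ Finset.univ.filter (fun ℓ : Fin k → Fin (2 * k) => StrictMono ℓ),
      e adj (diag (k + 2) (extl (fun b => (ℓ b : ℕ)))) *
        e adj (diag (k + 1) (low (fun b => (ℓ b : ℕ)))) := by
  classical
  rw [e_cut adj (D k) (2, k + 1) (by rw [mem_D]; simp) (by simp [adj]), Adm_eq hk,
    Finset.sum_image]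
  · apply Finset.sum_congr rfl
    intro ℓ hℓ
    simp only [Finset.mem_filter, Finset.mem_univ, true_and] at hℓ
    rw [e_upper (fun a b hab => hℓ hab) (fun b => (ℓ b).2)]
  · intro ℓ hℓ ℓ' hℓ' heq
    simp only [Finset.coe_filter, Finset.mem_univ, true_and, Set.mem_ofPred_eq] at hℓ hℓ'
    have := diag_extl_inj (ℓ := fun b => (ℓ b : ℕ)) (ℓ' := fun b => (ℓ' b : ℕ))
      (fun a b hab => hℓ hab) (fun a b hab => hℓ' hab) heq
    funext b
    exact Fin.ext (congrFun this b)

end Pool.Agent.Lib.MP_6a062b_co
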