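import Mathlib
import Pool.Agent.Lib.MP_6a062b_co.CauchyBinet

namespace Pool.Agent.Lib.MP_6a062b_co

open Finset Polynomial

/-- binomial expectation -/
noncomputable def Ex (q t : ℝ) (M : ℕ) (φ : ℕ → ℝ) : ℝ :=
  ∑ m ∈ range (M + 1), (M.choose m : ℝ) * q ^ m * t ^ (M - m) * φ m

theorem Ex_succ (q t : ℝ) (M : ℕ) (φ : ℕ → ℝ) :
    Ex q t (M + 1) φ = q * Ex q t M (fun m => φ (m + 1)) + t * Ex q t M φ := by
  have h1 : Ex q t (M + 1) φ = ∑ m ∈ range (M + 1),
      (((M.choose m : ℝ) + (M.choose (m + 1) : ℝ)) * q ^ (m + 1) * t ^ (M - m) * φ (m + 1)) +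
      t ^ (M + 1) * φ 0 := by
    rw [Ex, Finset.sum_range_succ']
    congr 1
    · apply Finset.sum_congr rfl
      intro m _
      rw [Nat.choose_succ_succ, Nat.add_sub_add_right]
      push_cast
      ring
    · simp
  have h2 : t * Ex q t M φ = ∑ m ∈ range (M + 1),
      ((M.choose (m + 1) : ℝ) * q ^ (m + 1) * t ^ (M - m) * φ (m + 1)) + t ^ (M + 1) * φ 0 := by
    rw [Ex, Finset.sum_range_succ', mul_add, Finset.mul_sum, Finset.sum_range_succ
      (fun m => (M.choose (m + 1) : ℝ) * q ^ (m + 1) * t ^ (M - m) * φ (m + 1))]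
    simp only [Nat.choose_succ_self, Nat.cast_zero, zero_mul, add_zero]
    congr 1
    · apply Finset.sum_congr rfl
      intro m hm
      rw [Finset.mem_range] at hm
      have : M - m = (M - (m + 1)) + 1 := by omega
      rw [this, pow_succ]
      ring
    · simp
      ring
  rw [h1, h2, Ex, Finset.mul_sum, ← add_assoc, ← Finset.sum_add_distrib]
  congr 1
  apply Finset.sum_congr rfl
  intro m _
  ring

theorem cast_desc_succ (m i : ℕ) :
    ((m.descFactorial (i + 1) : ℕ) : ℝ) = ((m : ℝ) - i) * (m.descFactorial i : ℕ) := by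
  rw [Nat.descFactorial_succ]
  rcases le_or_gt i m with h | h
  · rw [Nat.cast_mul, Nat.cast_sub h]
  · rw [Nat.descFactorial_eq_zero_iff_lt.2 h]
    simp

theorem cast_succ_desc (m i : ℕ) : (((m + 1).descFactorial (i + 1) : ℕ) : ℝ) =
    (m.descFactorial (i + 1) : ℕ) + (i + 1) * (m.descFactorial i : ℕ) := by
  rw [Nat.succ_descFactorial_succ, cast_desc_succ]
  push_cast
  ring

theorem Ex_add (q t : ℝ) (M : ℕ) (φ ψ : ℕ → ℝ) :
    Ex q t M (fun m => φ m + ψ m) = Ex q t M φ + Ex q t M ψ := by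
  rw [Ex, Ex, Ex, ← Finset.sum_add_distrib]
  apply Finset.sum_congr rfl
  intro m _
  ring

theorem Ex_mul (q t : ℝ) (M : ℕ) (c : ℝ) (φ : ℕ → ℝ) :
    Ex q t M (fun m => c * φ m) = c * Ex q t M φ := by
  rw [Ex, Ex, Finset.mul_sum]
  apply Finset.sum_congr rfl
  intro m _
  ring

theorem Ex_desc {q t : ℝ} (h : q + t = 1) (M i : ℕ) :
    Ex q t M (fun m => (m.descFactorial i : ℕ)) = q ^ i * (M.descFactorial i : ℕ) := by
  induction M generalizing i with
  | zero =>
    cases i with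
    | zero => simp [Ex]
    | succ i => simp [Ex]
  | succ M ih =>
    rw [Ex_succ, ih]
    cases i with
    | zero =>
      have := ih 0
      simp only [Nat.descFactorial_zero, Nat.cast_one, pow_zero, one_mul] at this ⊢
      rw [this]
      linarith
    | succ i =>
      have h1 : Ex q t M (fun m => (((m + 1).descFactorial (i + 1) : ℕ) : ℝ)) =
          q ^ (i + 1) * (M.descFactorial (i + 1) : ℕ) + (i + 1) * (q ^ i * (M.descFactorial i : ℕ)) := by
        simp only [cast_succ_desc]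
        rw [Ex_add, Ex_mul, ih, ih]
      rw [h1, cast_succ_desc]
      have : t = 1 - q := by linarith
      rw [this]
      ring

/-- test functions -/
noncomputable def phi : ℕ → ℕ → ℝ
  | 0 => fun m => (m + 2) / (m + 3)
  | i + 1 => fun m => (m + 2) * (m.descFactorial i : ℕ)

noncomputable def sig : ℕ → ℕ → ℝ
  | 0 => fun _ => 1
  | i + 1 => fun m => (m + 2) * (m.descFactorial i : ℕ)

theorem Ex_sig_succ {q t : ℝ} (h : q + t = 1) (M i : ℕ) :
    Ex q t M (sig (i + 1)) =
      q ^ (i + 1) * (M.descFactorial (i + 1) : ℕ) + (i + 2) * (q ^ i * (M.descFactorial i : ℕ)) := by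
  have h1 : sig (i + 1) = fun m => ((m.descFactorial (i + 1) : ℕ) : ℝ) +
      (i + 2) * (m.descFactorial i : ℕ) := by
    funext m
    rw [sig, cast_desc_succ]
    ring
  rw [h1, Ex_add, Ex_mul, Ex_desc h, Ex_desc h]

theorem Ex_sig_zero {q t : ℝ} (h : q + t = 1) (M : ℕ) : Ex q t M (sig 0) = 1 := by
  have := Ex_desc h M 0
  simpa [sig] using this

/-- real Vandermonde determinant -/
noncomputable def VR {n : ℕ} (x : Fin n → ℝ) : ℝ := (Matrix.vandermonde x).det

theorem VR_sub {n : ℕ} (x : Fin n → ℝ) (c : ℝ) :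
    VR (fun b => c - x b) = (∏ i : Fin n, (-1 : ℝ) ^ (i : ℕ)) * VR x := by
  have h1 : VR (fun b => c - x b) = VR (fun b => - x b) := by
    rw [VR, VR, ← Matrix.det_vandermonde_add (fun b => - x b) c]
    congr 1
    ext i j
    simp only [Matrix.vandermonde_apply]
    ring
  rw [h1, VR, VR, ← Matrix.det_mul_row]
  congr 1
  ext i j
  simp only [Matrix.vandermonde_apply, Matrix.of_apply]
  rw [← mul_pow]
  ring

theorem VR_poly {n : ℕ} (x : Fin n → ℝ) (p : Fin n → ℝ[X]) (hd : ∀ i, (p i).natDegree = i)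
    (hm : ∀ i, (p i).Monic) : VR x = (Matrix.of (fun i j : Fin n => (p j).eval (x i))).det :=
  Matrix.det_eval_matrixOfPolynomials_eq_det_vandermonde x p hd hm

/-- polynomials -/
noncomputable def Pp : ℕ → ℝ[X]
  | 0 => 1
  | i + 1 => (X + C 3) * descPochhammer ℝ i

theorem Pp_monic (i : ℕ) : (Pp i).Monic := by
  cases i with
  | zero => exact monic_one
  | succ i => exact (monic_X_add_C 3).mul (monic_descPochhammer ℝ i)

theorem Pp_natDegree (i : ℕ) : (Pp i).natDegree = i := by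
  cases i with
  | zero => simp [Pp]
  | succ i =>
    rw [Pp, (monic_X_add_C (3 : ℝ)).natDegree_mul (monic_descPochhammer ℝ i), natDegree_X_add_C,
      descPochhammer_natDegree]
    ring

theorem Pp_eval (i m : ℕ) : (Pp i).eval (m : ℝ) * ((m + 2) / (m + 3)) = phi i m := by
  have h3 : (m : ℝ) + 3 ≠ 0 := by positivity
  cases i with
  | zero => simp [Pp, phi]
  | succ i =>
    rw [Pp, phi, eval_mul, descPochhammer_eval_eq_descFactorial]
    simp only [eval_add, eval_X, eval_C]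
    field_simp

/-- real weight -/
noncomputable def omR (k : ℕ) (l : ℕ) : ℝ :=
  ((2 * k : ℕ) - l) * ((2 * k + 1 : ℕ) - l) ^ 2 / (l.factorial * (2 * k + 2 - l).factorial)

theorem omR_eq {k l m : ℕ} (h : l + m + 1 = 2 * k) :
    omR k l = ((m : ℝ) + 2) / (m + 3) / (l.factorial * m.factorial) := by
  have h1 : 2 * k + 2 - l = m + 3 := by omega
  have h2 : (((2 * k : ℕ) : ℝ) - l) = m + 1 := by
    rw [← h]; push_cast; ring
  have h3 : (((2 * k + 1 : ℕ) : ℝ) - l) = m + 2 := by
    rw [← h]; push_cast; ring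
  rw [omR, h1, h2, h3]
  have h4 : (((m + 3).factorial : ℕ) : ℝ) = (m + 3) * ((m + 2) * ((m + 1) * m.factorial)) := by
    rw [show m + 3 = (m + 2) + 1 by ring, Nat.factorial_succ, show m + 2 = (m + 1) + 1 by ring,
      Nat.factorial_succ, Nat.factorial_succ]
    push_cast
    ring
  rw [h4]
  have h5 : (m.factorial : ℝ) ≠ 0 := by exact_mod_cast Nat.factorial_ne_zero _
  have h6 : (l.factorial : ℝ) ≠ 0 := by exact_mod_cast Nat.factorial_ne_zero _
  have h7 : (m : ℝ) + 3 ≠ 0 := by positivity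
  have h8 : (m : ℝ) + 2 ≠ 0 := by positivity
  have h9 : (m : ℝ) + 1 ≠ 0 := by positivity
  field_simp

theorem entry {k : ℕ} (q t : ℝ) (i j : ℕ) (hj : j < 2 * k) :
    ∑ l : Fin (2 * k), (Pp i).eval (((2 * k - 1 - (l : ℕ) : ℕ)) : ℝ) *
      (omR k l * t ^ (l : ℕ) * q ^ (2 * k - 1 - (l : ℕ))) * ((l : ℕ).descFactorial j : ℕ) =
    t ^ j / (2 * k - 1 - j).factorial * Ex q t (2 * k - 1 - j) (phi i) := by
  rw [Fin.sum_univ_eq_sum_range (fun l : ℕ => (Pp i).eval (((2 * k - 1 - l : ℕ)) : ℝ) *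
      (omR k l * t ^ l * q ^ (2 * k - 1 - l)) * (l.descFactorial j : ℕ)) (2 * k)]
  rw [← Finset.sum_range_reflect, Ex, Finset.mul_sum]
  symm
  apply Finset.sum_subset_zero_on_sdiff
  · intro m hm
    simp only [Finset.mem_range] at hm ⊢
    omega
  · intro m hm
    simp only [Finset.mem_sdiff, Finset.mem_range] at hm
    rw [Nat.descFactorial_eq_zero_iff_lt.2 (by omega)]
    simp
  · intro m hm
    simp only [Finset.mem_range] at hm
    have h1 : 2 * k - 1 - (2 * k - 1 - m) = m := by omega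
    rw [h1, omR_eq (l := 2 * k - 1 - m) (m := m) (by omega), ← Pp_eval]
    obtain ⟨n, hn⟩ : ∃ n, 2 * k - 1 - j = n := ⟨_, rfl⟩
    obtain ⟨a, ha⟩ : ∃ a, n = m + a := ⟨n - m, by omega⟩
    have h2 : 2 * k - 1 - m = j + a := by omega
    rw [hn, h2, ha]
    have h3 : ((m + a).choose m : ℝ) = (m + a).factorial / (m.factorial * a.factorial) := by
      rw [Nat.cast_choose ℝ (Nat.le_add_right m a), Nat.add_sub_cancel_left]
    have h4 : ((j + a).descFactorial j : ℝ) * a.factorial = (j + a).factorial := by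
      have := Nat.factorial_mul_descFactorial (Nat.le_add_right j a)
      rw [Nat.add_sub_cancel_left] at this
      rw [mul_comm]
      exact_mod_cast this
    have h5 : (m.factorial : ℝ) ≠ 0 := by exact_mod_cast Nat.factorial_ne_zero _
    have h6 : (a.factorial : ℝ) ≠ 0 := by exact_mod_cast Nat.factorial_ne_zero _
    have h7 : ((m + a).factorial : ℝ) ≠ 0 := by exact_mod_cast Nat.factorial_ne_zero _
    have h8 : ((j + a).descFactorial j : ℝ) ≠ 0 := by
      intro h0
      rw [h0, zero_mul] at h4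
      exact (Nat.factorial_ne_zero (j + a)) (by exact_mod_cast h4.symm)
    have h9 : (m : ℝ) + 3 ≠ 0 := by positivity
    rw [h3, ← h4, Nat.add_sub_cancel_left, pow_add]
    field_simp

/-- the matrix of binomial expectations of `phi` -/
noncomputable def Mphi (k : ℕ) (q t : ℝ) : Matrix (Fin k) (Fin k) ℝ :=
  Matrix.of fun i j => Ex q t (2 * k - 1 - (j : ℕ)) (phi i)

noncomputable def Msig (k : ℕ) (q t : ℝ) : Matrix (Fin k) (Fin k) ℝ :=
  Matrix.of fun i j => Ex q t (2 * k - 1 - (j : ℕ)) (sig i)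

theorem S_eq (k : ℕ) (q t : ℝ) :
    (∏ i : Fin k, (-1 : ℝ) ^ (i : ℕ)) *
    ∑ g ∈ Finset.univ.filter (fun g : Fin k → Fin (2 * k) => StrictMono g),
      (VR (fun b => ((g b : ℕ) : ℝ)) ^ 2 *
        ∏ b, (omR k (g b) * t ^ (g b : ℕ) * q ^ (2 * k - 1 - (g b : ℕ)))) =
    (∏ j : Fin k, (t ^ (j : ℕ) / (2 * k - 1 - (j : ℕ)).factorial)) * (Mphi k q t).det := by
  set A : Matrix (Fin k) (Fin (2 * k)) ℝ := Matrix.of fun i l =>
    (Pp i).eval (((2 * k - 1 - (l : ℕ) : ℕ)) : ℝ) *
      (omR k l * t ^ (l : ℕ) * q ^ (2 * k - 1 - (l : ℕ))) with hA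
  set B : Matrix (Fin (2 * k)) (Fin k) ℝ := Matrix.of fun l j =>
    (((l : ℕ).descFactorial j : ℕ) : ℝ) with hB
  have hAB : A * B = Matrix.of fun i j : Fin k =>
      (t ^ (j : ℕ) / (2 * k - 1 - (j : ℕ)).factorial) * (Mphi k q t) i j := by
    ext i j
    rw [Matrix.mul_apply]
    simp only [hA, hB, Matrix.of_apply, Mphi]
    exact entry q t i j (by have := j.2; omega)
  have h1 : (A * B).det = (∏ j : Fin k, (t ^ (j : ℕ) / (2 * k - 1 - (j : ℕ)).factorial)) *
      (Mphi k q t).det := by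
    rw [hAB]
    exact Matrix.det_mul_row (fun j : Fin k => (t ^ (j : ℕ) / (2 * k - 1 - (j : ℕ)).factorial : ℝ)) (Mphi k q t)
  rw [← h1, cauchyBinet, Finset.mul_sum]
  apply Finset.sum_congr rfl
  intro g _
  have h2 : (B.submatrix g id).det = VR (fun b => ((g b : ℕ) : ℝ)) := by
    rw [VR_poly _ (fun j : Fin k => descPochhammer ℝ j) (fun j => descPochhammer_natDegree _ _)
      (fun j => monic_descPochhammer ℝ _)]
    congr 1
    ext i j
    simp only [hB, Matrix.submatrix_apply, Matrix.of_apply, id]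
    rw [descPochhammer_eval_eq_descFactorial]
  have h3 : (A.submatrix id g).det =
      (∏ b, (omR k (g b) * t ^ (g b : ℕ) * q ^ (2 * k - 1 - (g b : ℕ)))) *
      ((∏ i : Fin k, (-1 : ℝ) ^ (i : ℕ)) * VR (fun b => ((g b : ℕ) : ℝ))) := by
    rw [← VR_sub (fun b => ((g b : ℕ) : ℝ)) ((2 * k : ℕ) - 1)]
    rw [VR_poly _ (fun j : Fin k => Pp j) (fun j => Pp_natDegree _) (fun j => Pp_monic _)]
    rw [← Matrix.det_mul_column, ← Matrix.det_transpose]
    congr 1
    ext i j
    simp only [hA, Matrix.transpose_apply, Matrix.submatrix_apply, Matrix.of_apply, id]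
    have h4 : (((2 * k - 1 - (g i : ℕ) : ℕ)) : ℝ) = ((2 * k : ℕ) : ℝ) - 1 - (g i : ℕ) := by
      have := (g i).2
      rw [Nat.cast_sub (by omega), Nat.cast_sub (by omega)]
      push_cast
      ring
    rw [h4]
    ring
  rw [h2, h3]
  ring

end Pool.Agent.Lib.MP_6a062b_co
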