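import Mathlib
import Pool.Agent.Lib.MP_6a062b_co.Det

namespace Pool.Agent.Lib.MP_6a062b_co

open Finset Polynomial

theorem det_updateRow_eq {n : ℕ} (A : Matrix (Fin n) (Fin n) ℝ) (i0 : Fin n) (r a : Fin n → ℝ)
    (h : A.mulVec a = Pi.single i0 1) : (A.updateRow i0 r).det = (∑ j, r j * a j) * A.det := by
  rw [← Matrix.cramer_transpose_apply, Matrix.cramer_eq_adjugate_mulVec, ← Matrix.adjugate_transpose]
  have h1 : A.adjugate.mulVec (A.mulVec a) = A.det • a := by
    rw [Matrix.mulVec_mulVec, Matrix.adjugate_mul, Matrix.smul_mulVec, Matrix.one_mulVec]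
  rw [h, Matrix.mulVec_single_one] at h1
  rw [Matrix.mulVec, dotProduct, Finset.sum_mul]
  apply Finset.sum_congr rfl
  intro j _
  have h2 := congrFun h1 j
  simp only [Matrix.col_apply, Pi.smul_apply, smul_eq_mul] at h2
  rw [Matrix.transpose_apply, h2]
  ring

theorem VR_id (n : ℕ) : VR (fun b : Fin n => ((b : ℕ) : ℝ)) = ∏ b : Fin n, ((b : ℕ).factorial : ℝ) := by
  rw [VR_poly _ (fun j : Fin n => descPochhammer ℝ j) (fun j => descPochhammer_natDegree _ _)
      (fun j => monic_descPochhammer ℝ _), Matrix.det_of_isLowerTriangular]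
  · apply Finset.prod_congr rfl
    intro b _
    simp [Matrix.of_apply, descPochhammer_eval_eq_descFactorial, Nat.descFactorial_self]
  · intro i j hij
    simp only [Matrix.of_apply]
    have : (i : ℕ) < j := by simpa using hij
    rw [descPochhammer_eval_eq_descFactorial, Nat.descFactorial_eq_zero_iff_lt.2 this]
    simp

/-- polynomials for the rows of `Msig` -/
noncomputable def Qp (q : ℝ) : ℕ → ℝ[X]
  | 0 => 1
  | i + 1 => descPochhammer ℝ (i + 1) + C (((i : ℝ) + 2) / q) * descPochhammer ℝ i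

theorem Qp_deg_lt (q : ℝ) (i : ℕ) :
    (C (((i : ℝ) + 2) / q) * descPochhammer ℝ i).degree < (descPochhammer ℝ (i + 1)).degree := by
  apply degree_lt_degree
  rw [descPochhammer_natDegree]
  have := natDegree_C_mul_le (((i : ℝ) + 2) / q) (descPochhammer ℝ i)
  rw [descPochhammer_natDegree] at this
  omega

theorem Qp_monic (q : ℝ) (i : ℕ) : (Qp q i).Monic := by
  cases i with
  | zero => exact monic_one
  | succ i => exact (monic_descPochhammer ℝ _).add_of_left (Qp_deg_lt q i)

theorem Qp_natDegree (q : ℝ) (i : ℕ) : (Qp q i).natDegree = i := by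
  cases i with
  | zero => simp [Qp]
  | succ i =>
    rw [Qp, natDegree_add_eq_left_of_degree_lt (Qp_deg_lt q i), descPochhammer_natDegree]

theorem Qp_eval {q t : ℝ} (h : q + t = 1) (hq : q ≠ 0) (i M : ℕ) :
    q ^ i * (Qp q i).eval (M : ℝ) = Ex q t M (sig i) := by
  cases i with
  | zero => rw [Ex_sig_zero h]; simp [Qp]
  | succ i =>
    rw [Ex_sig_succ h, Qp, eval_add, eval_mul, eval_C, descPochhammer_eval_eq_descFactorial,
      descPochhammer_eval_eq_descFactorial]
    field_simp
    ring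

theorem det_Msig {k : ℕ} {q t : ℝ} (h : q + t = 1) (hq : q ≠ 0) :
    (Msig k q t).det = (∏ i : Fin k, q ^ (i : ℕ)) * ((∏ i : Fin k, (-1 : ℝ) ^ (i : ℕ)) *
      ∏ b : Fin k, ((b : ℕ).factorial : ℝ)) := by
  have h1 : Msig k q t = Matrix.of fun i j : Fin k => q ^ (i : ℕ) *
      ((Matrix.of (fun i j : Fin k => (Qp q j).eval (((2 * k - 1 - (i : ℕ) : ℕ)) : ℝ))).transpose) i j := by
    ext i j
    simp only [Msig, Matrix.of_apply, Matrix.transpose_apply]
    rw [Qp_eval h hq]
  rw [h1, Matrix.det_mul_column, Matrix.det_transpose]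
  congr 1
  rw [← VR_id, ← VR_sub _ ((2 * k : ℕ) - 1),
    VR_poly _ (fun j : Fin k => Qp q j) (fun j => Qp_natDegree _ _) (fun j => Qp_monic _ _)]
  congr 1
  ext i j
  simp only [Matrix.of_apply]
  have h4 : (((2 * k - 1 - (i : ℕ) : ℕ)) : ℝ) = ((2 * k : ℕ) : ℝ) - 1 - (i : ℕ) := by
    have := i.2
    rw [Nat.cast_sub (by omega), Nat.cast_sub (by omega)]
    push_cast
    ring
  rw [h4]

theorem det_Mphi {k : ℕ} (hk : 0 < k) {q t : ℝ} (a : Fin k → ℝ)
    (ha0 : ∑ j : Fin k, a j * Ex q t (2 * k - 1 - (j : ℕ)) (sig 0) = 1)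
    (ha : ∀ i, i + 1 < k → ∑ j : Fin k, a j * Ex q t (2 * k - 1 - (j : ℕ)) (sig (i + 1)) = 0) :
    (Mphi k q t).det =
      (∑ j : Fin k, a j * Ex q t (2 * k - 1 - (j : ℕ)) (phi 0)) * (Msig k q t).det := by
  have h1 : Mphi k q t = (Msig k q t).updateRow ⟨0, hk⟩
      (fun j : Fin k => Ex q t (2 * k - 1 - (j : ℕ)) (phi 0)) := by
    ext i j
    by_cases hi : i = ⟨0, hk⟩
    · subst hi
      rw [Matrix.updateRow_self]
      simp [Mphi]
    · rw [Matrix.updateRow_ne hi]
      simp only [Mphi, Msig, Matrix.of_apply]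
      obtain ⟨i, hi'⟩ := i
      cases i with
      | zero => exact absurd rfl hi
      | succ i => rfl
  rw [h1, det_updateRow_eq (Msig k q t) ⟨0, hk⟩ _ a]
  · congr 1
    apply Finset.sum_congr rfl
    intro j _
    ring
  · ext i
    rw [Matrix.mulVec, dotProduct]
    obtain ⟨i, hi⟩ := i
    cases i with
    | zero =>
      simp only [Pi.single_eq_same]
      rw [← ha0]
      apply Finset.sum_congr rfl
      intro j _
      simp only [Msig, Matrix.of_apply]
      ring
    | succ i =>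
      rw [Pi.single_eq_of_ne (by simp)]
      rw [← ha i hi]
      apply Finset.sum_congr rfl
      intro j _
      simp only [Msig, Matrix.of_apply]
      ring

end Pool.Agent.Lib.MP_6a062b_co
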