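import Mathlib
import Pool.Agent.Lib.MP_6a062b_co.LinExt

namespace Pool.Agent.Lib.MP_6a062b_co

open Finset

variable {α : Type*} [DecidableEq α] (r : α → α → Prop)

theorem card_equiv (s : Finset α) (N : ℕ) (hN : s.card = N) :
    Nat.card {T : s ≃ Finset.Icc 1 N // ∀ a b : s, r a.1 b.1 → T a < T b} = e r s := by
  classical
  subst hN
  rw [e]
  refine Nat.card_congr (Equiv.ofBijective (fun T => ⟨fun x => if h : x ∈ s then
    ((T.1 ⟨x, h⟩ : Finset.Icc 1 s.card) : ℕ) else 0, ?_⟩) ⟨?_, ?_⟩)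
  · refine ⟨fun x hx => by simp [hx], ⟨?_, ?_, ?_⟩, ?_⟩
    · intro x hx
      have hx' : x ∈ s := hx
      simp only [dif_pos hx']
      have := (T.1 ⟨x, hx'⟩).2
      rw [Finset.mem_Icc] at this
      exact this
    · intro x hx y hy hxy
      have hx' : x ∈ s := hx
      have hy' : y ∈ s := hy
      simp only [dif_pos hx', dif_pos hy'] at hxy
      have := T.1.injective (Subtype.ext hxy)
      simpa using this
    · intro m hm
      have hm' : m ∈ Finset.Icc 1 s.card := by
        rw [Finset.mem_Icc]; exact hm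
      refine ⟨(T.1.symm ⟨m, hm'⟩).1, (T.1.symm ⟨m, hm'⟩).2, ?_⟩
      simp
    · intro x hx y hy hxy
      simp only [dif_pos hx, dif_pos hy]
      exact T.2 ⟨x, hx⟩ ⟨y, hy⟩ hxy
  · rintro ⟨T, hT⟩ ⟨T', hT'⟩ h
    apply Subtype.ext
    apply Equiv.ext
    rintro ⟨x, hx⟩
    simp only [Subtype.mk.injEq] at h
    have := congrFun h x
    simp only [dif_pos hx] at this
    exact Subtype.ext this
  · rintro ⟨T, h0, h1, h2⟩
    have hbij : Function.Bijective (fun x : s => (⟨T x.1, by
        have := h1.mapsTo x.2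
        rw [Finset.mem_Icc]
        exact this⟩ : Finset.Icc 1 s.card)) := by
      constructor
      · intro x y hxy
        simp only [Subtype.mk.injEq] at hxy
        exact Subtype.ext (h1.injOn x.2 y.2 hxy)
      · rintro ⟨m, hm⟩
        rw [Finset.mem_Icc] at hm
        obtain ⟨x, hx, hxm⟩ := h1.surjOn (show m ∈ Set.Icc 1 s.card from hm)
        exact ⟨⟨x, hx⟩, Subtype.ext hxm⟩
    refine ⟨⟨Equiv.ofBijective _ hbij, ?_⟩, ?_⟩
    · intro a b hab
      exact h2 a.1 a.2 b.1 b.2 hab
    · apply Subtype.ext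
      funext x
      by_cases hx : x ∈ s
      · simp only [dif_pos hx]
        rfl
      · simp only [dif_neg hx]
        exact (h0 x hx).symm

end Pool.Agent.Lib.MP_6a062b_co
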