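import Mathlib
import Pool.Agent.Lib.MP_6a062b_co.Det2
import Pool.Agent.Lib.MP_6a062b_co.Beta

namespace Pool.Agent.Lib.MP_6a062b_co

open Finset Polynomial

theorem Ex_const {q t : ℝ} (h : q + t = 1) (M : ℕ) : Ex q t M (fun _ => 1) = 1 := by
  have := Ex_desc h M 0
  simpa using this

theorem Ex_inv (q t : ℝ) (M : ℕ) : Ex q t M (fun m => 1 / ((m : ℝ) + 3)) =
    ∫ y in (0 : ℝ)..1, y ^ 2 * (t + q * y) ^ M := by
  have h1 : ∀ y : ℝ, y ^ 2 * (t + q * y) ^ M =
      ∑ m ∈ range (M + 1), ((M.choose m : ℝ) * q ^ m * t ^ (M - m)) * y ^ (m + 2) := by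
    intro y
    rw [add_comm t, add_pow, Finset.mul_sum]
    apply Finset.sum_congr rfl
    intro m _
    ring
  simp only [h1]
  rw [intervalIntegral.integral_finsetSum, Ex]
  · apply Finset.sum_congr rfl
    intro m _
    rw [intervalIntegral.integral_const_mul, integral_pow]
    push_cast
    simp
    left
    ring
  · intro m _
    apply Continuous.intervalIntegrable
    fun_prop

theorem Ex_phi_zero {q t : ℝ} (h : q + t = 1) (M : ℕ) : Ex q t M (phi 0) =
    1 - ∫ y in (0 : ℝ)..1, y ^ 2 * (t + q * y) ^ M := by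
  have h1 : phi 0 = fun m : ℕ => (fun _ : ℕ => (1 : ℝ)) m + (-1) * (1 / ((m : ℝ) + 3)) := by
    funext m
    have : (m : ℝ) + 3 ≠ 0 := by positivity
    rw [phi]
    field_simp
    ring
  rw [h1, Ex_add, Ex_mul (φ := fun m : ℕ => 1 / ((m : ℝ) + 3)), Ex_inv, Ex_const h]
  ring

/-- abstract interpolation: from a polynomial `T` of degree at most `n` such that
`G = X^(n+1) T` satisfies `(X - t)^2 G = q^2 (1 - (1-X)^(n+1) W)`. -/
theorem interp {n : ℕ} {q t : ℝ} (h : q + t = 1) (hq : q ≠ 0) (T W : ℝ[X]) (hT : T.natDegree ≤ n)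
    (hG : (X - C t) ^ 2 * (X ^ (n + 1) * T) = C (q ^ 2) * (1 - (1 - X) ^ (n + 1) * W)) :
    (Mphi (n + 1) q t).det =
      (1 - ∫ y in (0 : ℝ)..1, y ^ 2 * (X ^ (n + 1) * T).eval (t + q * y)) *
        (Msig (n + 1) q t).det := by
  set G : ℝ[X] := X ^ (n + 1) * T with hGdef
  have hTsum : T = ∑ i ∈ range (n + 1), C (T.coeff i) * X ^ i := by
    conv_lhs => rw [T.as_sum_range_C_mul_X_pow' (show T.natDegree < n + 1 by omega)]
  have hGsum : G = ∑ i ∈ range (n + 1), C (T.coeff i) * X ^ (n + 1 + i) := by
    rw [hGdef]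
    conv_lhs => rw [hTsum]
    rw [Finset.mul_sum]
    apply Finset.sum_congr rfl
    intro i _
    ring
  clear_value G
  -- summation formula
  have hsum : ∀ φ : ℕ → ℝ, ∑ j : Fin (n + 1), T.coeff (n - (j : ℕ)) * φ (2 * (n + 1) - 1 - (j : ℕ)) =
      ∑ i ∈ range (n + 1), T.coeff i * φ (n + 1 + i) := by
    intro φ
    rw [Fin.sum_univ_eq_sum_range (fun j : ℕ => T.coeff (n - j) * φ (2 * (n + 1) - 1 - j)) (n + 1)]
    rw [← Finset.sum_range_reflect]
    apply Finset.sum_congr rfl
    intro i hi
    rw [Finset.mem_range] at hi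
    congr 2
    · omega
    · omega
  -- derivatives of G at 1
  have hder : ∀ i, (derivative^[i] G).eval 1 =
      ∑ j ∈ range (n + 1), T.coeff j * ((n + 1 + j).descFactorial i : ℕ) := by
    intro i
    rw [hGsum, iterate_derivative_sum, eval_finsetSum]
    apply Finset.sum_congr rfl
    intro j _
    rw [iterate_derivative_C_mul, iterate_derivative_X_pow_eq_natCast_mul]
    simp
  have hq1 : q = 1 - t := by linarith
  have hG1 : G.eval 1 = 1 := by
    have := congrArg (eval 1) hG
    simp only [eval_mul, eval_pow, eval_sub, eval_X, eval_C, eval_one, sub_self, ne_eq,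
      Nat.add_eq_zero_iff, one_ne_zero, and_false, not_false_eq_true, zero_pow, zero_mul,
      sub_zero, mul_one] at this
    rw [← hq1] at this
    have hq2 : q ^ 2 ≠ 0 := pow_ne_zero _ hq
    exact mul_left_cancel₀ hq2 (by rw [this, mul_one])
  -- K
  have hK : (X - 1) ^ n ∣ (2 * G + (X - C t) * derivative G) := by
    have h1 : (X - C t) * (2 * G + (X - C t) * derivative G) = derivative ((X - C t) ^ 2 * G) := by
      have h0 : (X - C t) ^ 2 * G = (X - C t) * ((X - C t) * G) := by ring
      rw [h0]
      simp only [derivative_mul, derivative_sub, derivative_X, derivative_C, sub_zero]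
      ring
    have h2 : (X - 1) ^ n ∣ derivative ((X - C t) ^ 2 * G) := by
      rw [hG]
      have h3 : derivative (C (q ^ 2) * (1 - (1 - X) ^ (n + 1) * W)) =
          - (C (q ^ 2) * derivative ((1 - X) ^ (n + 1) * W)) := by
        rw [derivative_C_mul]
        simp only [derivative_sub, derivative_one]
        ring
      rw [h3, dvd_neg]
      apply Dvd.dvd.mul_left
      have h4 : (X - 1 : ℝ[X]) ^ (n + 1) ∣ (1 - X) ^ (n + 1) * W := by
        apply Dvd.dvd.mul_right
        have : (1 - X : ℝ[X]) = -(X - 1) := by ring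
        rw [this, neg_pow]
        exact Dvd.intro_left _ rfl
      have h5 := pow_sub_one_dvd_derivative_of_pow_dvd h4
      rwa [Nat.add_sub_cancel] at h5
    rw [← h1] at h2
    have h5 : IsCoprime ((X - 1 : ℝ[X]) ^ n) (X - C t) := by
      apply IsCoprime.pow_left
      refine ⟨C (-(1 / q)), C (1 / q), ?_⟩
      have : (C (-(1 / q)) : ℝ[X]) * (X - 1) + C (1 / q) * (X - C t) = C (1 / q * (1 - t)) := by
        simp only [C_neg, C_mul, C_sub, C_1]
        ring
      rw [this, ← hq1, one_div, inv_mul_cancel₀ hq, C_1]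
    exact h5.dvd_of_dvd_mul_left h2
  have hiter : ∀ i, derivative^[i] (2 * G + (X - C t) * derivative G) =
      ((i + 2 : ℕ) : ℝ[X]) * derivative^[i] G + (X - C t) * derivative^[i + 1] G := by
    intro i
    induction i with
    | zero => simp
    | succ i ih =>
      rw [Function.iterate_succ_apply', ih]
      simp only [derivative_add, derivative_mul, derivative_natCast, zero_mul, zero_add,
        derivative_sub, derivative_X, derivative_C, sub_zero, one_mul]
      rw [← Function.iterate_succ_apply' derivative i G,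
        ← Function.iterate_succ_apply' derivative (i + 1) G]
      push_cast
      ring
  have hKey : ∀ i, i < n → ((i : ℝ) + 2) * (derivative^[i] G).eval 1 +
      q * (derivative^[i + 1] G).eval 1 = 0 := by
    intro i hi
    have h1 := pow_sub_dvd_iterate_derivative_of_pow_dvd i hK
    have h2 : (X - 1 : ℝ[X]) ∣ derivative^[i] (2 * G + (X - C t) * derivative G) := by
      refine dvd_trans ?_ h1
      exact dvd_pow_self _ (by omega)
    obtain ⟨P, hP⟩ := h2
    have h3 := congrArg (eval 1) hP
    rw [hiter] at h3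
    simp only [eval_add, eval_mul, eval_natCast, eval_sub, eval_X, eval_C, eval_one, sub_self,
      zero_mul] at h3
    rw [← hq1] at h3
    push_cast at h3
    exact h3
  rw [det_Mphi (Nat.succ_pos n) (fun j => T.coeff (n - (j : ℕ)))]
  · congr 1
    rw [hsum (fun M => Ex q t M (phi 0))]
    simp only [Ex_phi_zero h]
    have h1 : ∑ i ∈ range (n + 1), T.coeff i * (1 - ∫ y in (0 : ℝ)..1, y ^ 2 * (t + q * y) ^ (n + 1 + i)) =
        (∑ i ∈ range (n + 1), T.coeff i) -
        ∑ i ∈ range (n + 1), ∫ y in (0 : ℝ)..1, y ^ 2 * (T.coeff i * (t + q * y) ^ (n + 1 + i)) := by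
      rw [← Finset.sum_sub_distrib]
      apply Finset.sum_congr rfl
      intro i _
      rw [mul_sub, mul_one, ← intervalIntegral.integral_const_mul]
      congr 2
      funext y
      ring
    rw [h1]
    congr 1
    · have := hder 0
      simp only [Function.iterate_zero, id_eq, Nat.descFactorial_zero, Nat.cast_one, mul_one] at this
      rw [← this, hG1]
    · rw [← intervalIntegral.integral_finsetSum]
      · congr 1
        funext y
        rw [← Finset.mul_sum]
        congr 1
        conv_rhs => rw [hGsum]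
        rw [eval_finsetSum]
        apply Finset.sum_congr rfl
        intro i _
        simp
      · intro i _
        apply Continuous.intervalIntegrable
        fun_prop
  · rw [hsum (fun M => Ex q t M (sig 0))]
    simp only [Ex_sig_zero h, mul_one]
    have := hder 0
    simp only [Function.iterate_zero, id_eq, Nat.descFactorial_zero, Nat.cast_one, mul_one] at this
    rw [← this, hG1]
  · intro i hi
    rw [hsum (fun M => Ex q t M (sig (i + 1)))]
    simp only [Ex_sig_succ h]
    have h1 : ∑ j ∈ range (n + 1), T.coeff j * (q ^ (i + 1) * ((n + 1 + j).descFactorial (i + 1) : ℕ) +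
        (i + 2) * (q ^ i * ((n + 1 + j).descFactorial i : ℕ))) =
        q ^ i * (((i : ℝ) + 2) * (derivative^[i] G).eval 1 + q * (derivative^[i + 1] G).eval 1) := by
      rw [hder, hder, Finset.mul_sum, Finset.mul_sum, ← Finset.sum_add_distrib, Finset.mul_sum]
      apply Finset.sum_congr rfl
      intro j _
      ring
    rw [h1, hKey i (by omega), mul_zero]

end Pool.Agent.Lib.MP_6a062b_co
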