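import Mathlib
import Pool.Agent.Lib.MP_6a062b_co.Interp

namespace Pool.Agent.Lib.MP_6a062b_co

open Finset Polynomial

/-- the coefficients of the linear factor -/
noncomputable def L0 (n : ℕ) (t : ℝ) : ℝ := (Bp n).eval t / (t * (1 - t)) ^ (n + 1)

noncomputable def L1 (n : ℕ) (t : ℝ) : ℝ :=
  -(kap n) / (t * (1 - t)) + (n + 1) * (1 - 2 * t) * (Bp n).eval t / (t * (1 - t)) ^ (n + 2)

noncomputable def Ux (n : ℕ) (t : ℝ) (x : ℝ) : ℝ :=
  (Bp n).eval x - (x * (1 - x)) ^ (n + 1) * (L0 n t - L1 n t * (x - t))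

theorem exists_T (n : ℕ) {t : ℝ} (h0 : 0 < t) (h1 : t < 1) :
    ∃ T W : ℝ[X], T.natDegree ≤ n ∧
      (X - C t) ^ 2 * (X ^ (n + 1) * T) = C ((1 - t) ^ 2) * (1 - (1 - X) ^ (n + 1) * W) ∧
      ∀ x : ℝ, (x - t) ^ 2 * (X ^ (n + 1) * T).eval x = (1 - t) ^ 2 * Ux n t x := by
  have hq : 0 < 1 - t := by linarith
  set Q : ℝ[X] := bp n - (1 - X) ^ (n + 1) * (C (L0 n t) - C (L1 n t) * (X - C t)) with hQ
  have hb : (Bp n).eval t = t ^ (n + 1) * (bp n).eval t := by simp [Bp]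
  have hb' : (n + 1) * t ^ n * (bp n).eval t + t ^ (n + 1) * (derivative (bp n)).eval t =
      kap n * (t * (1 - t)) ^ n := by
    have := congrArg (eval t) (Bp_derivative n)
    rw [Bp, derivative_mul, derivative_X_pow] at this
    simpa using this
  have hQt : Q.eval t = 0 := by
    rw [hQ]
    simp only [eval_sub, eval_mul, eval_pow, eval_one, eval_X, eval_C, sub_self, mul_zero, sub_zero]
    rw [L0, hb, mul_pow]
    field_simp
    ring
  have hQt' : (derivative Q).eval t = 0 := by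
    have e1 : (derivative Q).eval t = (derivative (bp n)).eval t + (n + 1) * (1 - t) ^ n * L0 n t +
        (1 - t) ^ (n + 1) * L1 n t := by
      rw [hQ]
      simp only [derivative_sub, derivative_mul, derivative_pow, derivative_one, derivative_X,
        derivative_C]
      simp
      ring
    have e2 : (derivative (bp n)).eval t = (kap n * (t * (1 - t)) ^ n -
        (n + 1) * t ^ n * (bp n).eval t) / t ^ (n + 1) := by
      rw [← hb']
      field_simp
      ring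
    rw [e1, e2, L0, L1, hb, mul_pow, mul_pow, mul_pow]
    field_simp
    ring
  obtain ⟨Q1, hQ1⟩ := dvd_iff_isRoot.2 hQt
  have hQ1t : Q1.eval t = 0 := by
    have := hQt'
    rw [hQ1] at this
    simpa using this
  obtain ⟨T0, hT0⟩ := dvd_iff_isRoot.2 hQ1t
  have hQT : Q = (X - C t) ^ 2 * T0 := by
    rw [hQ1, hT0]; ring
  have hdegQ : Q.natDegree ≤ n + 2 := by
    rw [hQ]
    apply (natDegree_sub_le _ _).trans
    apply max_le
    · exact (bp_natDegree n).trans (by omega)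
    · apply natDegree_mul_le.trans
      have e1 : ((1 - X : ℝ[X]) ^ (n + 1)).natDegree ≤ n + 1 := by
        apply natDegree_pow_le.trans
        have : (1 - X : ℝ[X]).natDegree ≤ 1 := by
          apply (natDegree_sub_le _ _).trans
          simp
        calc (n + 1) * (1 - X : ℝ[X]).natDegree ≤ (n + 1) * 1 := Nat.mul_le_mul_left _ this
          _ = n + 1 := by ring
      have e2 : (C (L0 n t) - C (L1 n t) * (X - C t)).natDegree ≤ 1 := by
        apply (natDegree_sub_le _ _).trans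
        apply max_le
        · simp
        · apply (natDegree_C_mul_le _ _).trans
          simp
      omega
  have hdegT : T0.natDegree ≤ n := by
    by_cases h : T0 = 0
    · rw [h]; simp
    · have e1 : ((X - C t : ℝ[X]) ^ 2).Monic := (monic_X_sub_C t).pow 2
      rw [hQT, e1.natDegree_mul' h, (monic_X_sub_C t).natDegree_pow, natDegree_X_sub_C] at hdegQ
      omega
  have hsymm : 1 - Bp n = (1 - X) ^ (n + 1) * (bp n).comp (1 - X) := by
    have := Bp_symm n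
    have e1 : (Bp n).comp (1 - X) = (1 - X) ^ (n + 1) * (bp n).comp (1 - X) := by
      rw [Bp]
      simp
    rw [← e1]
    linear_combination -this
  have hXQ : X ^ (n + 1) * Q = Bp n - (X * (1 - X)) ^ (n + 1) *
      (C (L0 n t) - C (L1 n t) * (X - C t)) := by
    rw [hQ, Bp, mul_pow]
    ring
  have hGQ : (X - C t) ^ 2 * (X ^ (n + 1) * (C ((1 - t) ^ 2) * T0)) =
      C ((1 - t) ^ 2) * (X ^ (n + 1) * Q) := by
    rw [hQT]; ring
  refine ⟨C ((1 - t) ^ 2) * T0, (bp n).comp (1 - X) + X ^ (n + 1) *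
    (C (L0 n t) - C (L1 n t) * (X - C t)), ?_, ?_, ?_⟩
  · exact (natDegree_C_mul_le _ _).trans hdegT
  · rw [hGQ, hXQ]
    congr 1
    rw [mul_add, ← hsymm, mul_pow]
    ring
  · intro x
    have := congrArg (eval x) hGQ
    rw [hXQ] at this
    rw [eval_mul, eval_pow, eval_sub, eval_X, eval_C] at this
    rw [this]
    simp [Ux]

/-- primitive of `(x(1-x))^(n+1)` -/
noncomputable def Jx (n : ℕ) (x : ℝ) : ℝ :=
  ((n + 1) * (Bp n).eval x / kap n - (1 - 2 * x) * (x * (1 - x)) ^ (n + 1)) / (4 * (n + 1) + 2)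

theorem zpow_hasDerivAt (m : ℕ) (x : ℝ) :
    HasDerivAt (fun x : ℝ => (x * (1 - x)) ^ (m + 1)) ((m + 1) * (x * (1 - x)) ^ m * (1 - 2 * x)) x := by
  have h1 : HasDerivAt (fun x : ℝ => x * (1 - x)) (1 - 2 * x) x := by
    have h2 : HasDerivAt (fun x : ℝ => 1 - x) (-1) x := by
      simpa using (hasDerivAt_id x).const_sub 1
    exact ((hasDerivAt_id x).fun_mul h2).congr_deriv (by simp; ring)
  have h3 := h1.fun_pow (m + 1)
  exact h3.congr_deriv (by push_cast; simp)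

theorem lin_hasDerivAt (x : ℝ) : HasDerivAt (fun x : ℝ => 1 - 2 * x) (-2) x := by
  have := ((hasDerivAt_id x).const_mul 2).const_sub 1
  simpa using this

theorem Jx_hasDerivAt (n : ℕ) (x : ℝ) :
    HasDerivAt (Jx n) ((x * (1 - x)) ^ (n + 1)) x := by
  have h1 := ((Bp_hasDerivAt n x).const_mul ((n : ℝ) + 1)).div_const (kap n)
  have h2 := (lin_hasDerivAt x).fun_mul (zpow_hasDerivAt n x)
  have h3 := (h1.fun_sub h2).div_const (4 * ((n : ℝ) + 1) + 2)
  have hk := (kap_pos n).ne'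
  refine h3.congr_deriv ?_
  have h4 : (4 * ((n : ℝ) + 1) + 2) ≠ 0 := by positivity
  field_simp
  ring

/-- primitive of `Ux` -/
noncomputable def Vx (n : ℕ) (t : ℝ) (x : ℝ) : ℝ :=
  -(1 / 2) * (1 - 2 * x) * (Bp n).eval x + kap n / (2 * (n + 1)) * (x * (1 - x)) ^ (n + 1) -
    L0 n t * Jx n x + L1 n t * ((1 / 2 - t) * Jx n x - (x * (1 - x)) ^ (n + 2) / (2 * (n + 2)))

theorem Vx_hasDerivAt (n : ℕ) (t x : ℝ) : HasDerivAt (Vx n t) (Ux n t x) x := by
  have h1 := ((lin_hasDerivAt x).const_mul (-(1 / 2))).fun_mul (Bp_hasDerivAt n x)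
  have h2 := (zpow_hasDerivAt n x).const_mul (kap n / (2 * ((n : ℝ) + 1)))
  have h3 := (Jx_hasDerivAt n x).const_mul (L0 n t)
  have h4 := (Jx_hasDerivAt n x).const_mul (1 / 2 - t)
  have h5 := (zpow_hasDerivAt (n + 1) x).div_const (2 * ((n : ℝ) + 2))
  have h6 := (h4.fun_sub h5).const_mul (L1 n t)
  have h7 := ((h1.fun_add h2).fun_sub h3).fun_add h6
  refine h7.congr_deriv ?_
  rw [Ux]
  have h8 : (n : ℝ) + 1 ≠ 0 := by positivity
  have h9 : (n : ℝ) + 2 ≠ 0 := by positivity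
  push_cast
  field_simp
  ring

/-- the integrand -/
noncomputable def Pf (n : ℕ) (t : ℝ) : ℝ :=
  -(t - 1 / 2) * (1 - (Bp n).eval t) * (t * (1 - t)) ^ (2 * n + 2) +
  kap n / (2 * (n + 1)) * (t * (1 - t)) ^ (3 * n + 3) +
  (t * (1 - t)) ^ n * ((Bp n).eval t * ((2 * n + 3) * (t * (1 - t)) - (n + 1) / 2) -
    kap n * (t - 1 / 2) * (t * (1 - t)) ^ (n + 1)) *
    ((n + 1) * (1 - (Bp n).eval t) / kap n - 2 * (t - 1 / 2) * (t * (1 - t)) ^ (n + 1)) /
      (4 * n + 6) +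
  (kap n * (t * (1 - t)) ^ (3 * n + 3) +
    2 * (n + 1) * (t - 1 / 2) * (Bp n).eval t * (t * (1 - t)) ^ (2 * n + 2)) / (2 * (n + 2))

theorem main_det (n : ℕ) {t : ℝ} (h0 : 0 < t) (h1 : t < 1) :
    (Mphi (n + 1) (1 - t) t).det * ((1 - t) * (t * (1 - t)) ^ (2 * n + 2)) =
      Pf n t * (Msig (n + 1) (1 - t) t).det := by
  have hq : 0 < 1 - t := by linarith
  obtain ⟨T, W, hT, hG, hev⟩ := exists_T n h0 h1
  rw [interp (by ring) hq.ne' T W hT hG]
  have hint : ∫ y in (0 : ℝ)..1, y ^ 2 * (X ^ (n + 1) * T).eval (t + (1 - t) * y) =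
      (Vx n t 1 - Vx n t t) / (1 - t) := by
    have e1 : ∀ y : ℝ, y ^ 2 * (X ^ (n + 1) * T).eval (t + (1 - t) * y) =
        Ux n t (t + (1 - t) * y) := by
      intro y
      have := hev (t + (1 - t) * y)
      have e2 : (t + (1 - t) * y - t) ^ 2 = (1 - t) ^ 2 * y ^ 2 := by ring
      rw [e2, mul_assoc] at this
      exact mul_left_cancel₀ (pow_ne_zero 2 hq.ne') this
    simp only [e1]
    have e3 : ∀ y : ℝ, HasDerivAt (fun y => Vx n t (t + (1 - t) * y) / (1 - t))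
        (Ux n t (t + (1 - t) * y)) y := by
      intro y
      have e4 : HasDerivAt (fun y : ℝ => t + (1 - t) * y) (1 - t) y := by
        have := ((hasDerivAt_id y).const_mul (1 - t)).const_add t
        simpa using this
      have e5 := (HasDerivAt.comp y (Vx_hasDerivAt n t (t + (1 - t) * y)) e4).div_const (1 - t)
      refine e5.congr_deriv ?_
      field_simp
    rw [intervalIntegral.integral_eq_sub_of_hasDerivAt (fun y _ => e3 y)]
    · rw [show t + (1 - t) * 1 = 1 by ring, show t + (1 - t) * 0 = t by ring]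
      ring
    · apply Continuous.intervalIntegrable
      unfold Ux
      have := (Bp n).continuous
      fun_prop
  rw [hint]
  have hz : 0 < t * (1 - t) := mul_pos h0 hq
  have hk := (kap_pos n).ne'
  rw [mul_right_comm]
  congr 1
  rw [Vx, Vx, Jx, Jx, L0, L1, Pf, Bp_one]
  set β := (Bp n).eval t with hβ
  clear_value β
  have h4 : (4 * ((n : ℝ) + 1) + 2) ≠ 0 := by positivity
  have h5 : (4 * (n : ℝ) + 6) ≠ 0 := by positivity
  have h6 : (n : ℝ) + 1 ≠ 0 := by positivity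
  have h7 : (n : ℝ) + 2 ≠ 0 := by positivity
  obtain ⟨w, hw⟩ : ∃ w, (t * (1 - t)) ^ n = w := ⟨_, rfl⟩
  have e1 : (t * (1 - t)) ^ (n + 1) = w * (t * (1 - t)) := by rw [pow_succ, hw]
  have e2 : (t * (1 - t)) ^ (n + 2) = w * (t * (1 - t)) ^ 2 := by rw [pow_add, hw]
  have e3 : (t * (1 - t)) ^ (2 * n + 2) = w ^ 2 * (t * (1 - t)) ^ 2 := by
    rw [pow_add, mul_comm 2 n, pow_mul, hw]
  have e4 : (t * (1 - t)) ^ (3 * n + 3) = w ^ 3 * (t * (1 - t)) ^ 3 := by
    rw [pow_add, mul_comm 3 n, pow_mul, hw]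
  have hw0 : w ≠ 0 := by rw [← hw]; positivity
  rw [e1, e2, e3, e4, hw]
  simp only [sub_self, mul_zero, ne_eq, Nat.add_eq_zero_iff, one_ne_zero, and_false,
    not_false_eq_true, zero_pow, OfNat.ofNat_ne_zero]
  generalize (n : ℝ) = N at *
  have h8 : 4 * N + 6 = 2 * (2 * N + 3) := by ring
  have h9 : 4 * (N + 1) + 2 = 2 * (2 * N + 3) := by ring
  have h10 : 2 * N + 3 ≠ 0 := by
    intro h
    apply h5
    rw [h8, h]; ring
  rw [h8, h9]
  field_simp
  ring

/-- constant in front of the last Beta integral -/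
noncomputable def cst (n : ℕ) : ℝ :=
  kap n * 3 * (3 * n + 4) * (3 * n + 5) / (4 * (2 * n + 3) * (6 * n + 7) * (n + 2))

noncomputable def Psi (n : ℕ) (t : ℝ) : ℝ :=
  (1 - (Bp n).eval t) * (t * (1 - t)) ^ (2 * n + 3) / (2 * (2 * n + 3)) +
  (((n + 1) / kap n) * (((t - 1 / 2) * (t * (1 - t)) ^ (n + 1)) *
      ((Bp n).eval t * (1 - (Bp n).eval t))) +
    (1 - 2 * (Bp n).eval t) * (t * (1 - t)) ^ (2 * n + 2) / 4 +
    (Bp n).eval t * (t * (1 - t)) ^ (2 * n + 3) -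
    (Bp n).eval t * (t * (1 - t)) ^ (2 * n + 2) / 4 +
    (1 - (Bp n).eval t) * (t * (1 - t)) ^ (2 * n + 2) / 4) / (4 * n + 6) -
  (n + 1) / (n + 2) * ((Bp n).eval t * (t * (1 - t)) ^ (2 * n + 3)) / (2 * (2 * n + 3)) +
  kap n * (3 * (n + 1) ^ 2 + 2 * (n + 1) + 1) / (2 * (n + 1) * (n + 2) * (2 * n + 3)) *
    ((t - 1 / 2) * (t * (1 - t)) ^ (3 * n + 3)) / (6 * n + 7)

theorem Psi_hasDerivAt (n : ℕ) (t : ℝ) :
    HasDerivAt (Psi n) (Pf n t - cst n * (t * (1 - t)) ^ (3 * n + 2)) t := by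
  have hB := Bp_hasDerivAt n t
  have hB1 := hB.const_sub 1
  have hd : HasDerivAt (fun t : ℝ => t - 1 / 2) 1 t := by
    simpa using (hasDerivAt_id t).sub_const (1 / 2)
  have z1 := zpow_hasDerivAt n t
  have z22 := zpow_hasDerivAt (2 * n + 1) t
  have z23 := zpow_hasDerivAt (2 * n + 2) t
  have z33 := zpow_hasDerivAt (3 * n + 2) t
  have a1 := (hB1.fun_mul z23).div_const (2 * (2 * (n : ℝ) + 3))
  have a2 := ((hd.fun_mul z1).fun_mul (hB.fun_mul hB1)).const_mul (((n : ℝ) + 1) / kap n)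
  have a3 := (((hB.const_mul 2).const_sub 1).fun_mul z22).div_const 4
  have a4 := hB.fun_mul z23
  have a5 := (hB.fun_mul z22).div_const 4
  have a6 := (hB1.fun_mul z22).div_const 4
  have a7 := ((((a2.fun_add a3).fun_add a4).fun_sub a5).fun_add a6).div_const (4 * (n : ℝ) + 6)
  have a8 := ((hB.fun_mul z23).const_mul (((n : ℝ) + 1) / (n + 2))).div_const (2 * (2 * (n : ℝ) + 3))
  have a9 := ((hd.fun_mul z33).const_mul (kap n * (3 * ((n : ℝ) + 1) ^ 2 + 2 * (n + 1) + 1) /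
    (2 * (n + 1) * (n + 2) * (2 * n + 3)))).div_const (6 * (n : ℝ) + 7)
  have a10 := ((a1.fun_add a7).fun_sub a8).fun_add a9
  refine a10.congr_deriv ?_
  have hk := (kap_pos n).ne'
  rw [Pf, cst]
  set β := (Bp n).eval t with hβ
  clear_value β
  obtain ⟨w, hw⟩ : ∃ w, (t * (1 - t)) ^ n = w := ⟨_, rfl⟩
  have e1 : (t * (1 - t)) ^ (n + 1) = w * (t * (1 - t)) := by rw [pow_succ, hw]
  have e2 : (t * (1 - t)) ^ (2 * n + 1) = w ^ 2 * (t * (1 - t)) := by
    rw [pow_add, mul_comm 2 n, pow_mul, hw, pow_one]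
  have e3 : (t * (1 - t)) ^ (2 * n + 2) = w ^ 2 * (t * (1 - t)) ^ 2 := by
    rw [pow_add, mul_comm 2 n, pow_mul, hw]
  have e4 : (t * (1 - t)) ^ (3 * n + 3) = w ^ 3 * (t * (1 - t)) ^ 3 := by
    rw [pow_add, mul_comm 3 n, pow_mul, hw]
  have e5 : (t * (1 - t)) ^ (3 * n + 2) = w ^ 3 * (t * (1 - t)) ^ 2 := by
    rw [pow_add, mul_comm 3 n, pow_mul, hw]
  have e6 : (t * (1 - t)) ^ (2 * n + 2 + 1) = w ^ 2 * (t * (1 - t)) ^ 3 := by
    rw [pow_add, pow_add, mul_comm 2 n, pow_mul, hw]; ring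
  have e7 : (t * (1 - t)) ^ (3 * n + 2 + 1) = w ^ 3 * (t * (1 - t)) ^ 3 := by
    rw [pow_add, pow_add, mul_comm 3 n, pow_mul, hw]; ring
  have e8 : (t * (1 - t)) ^ (2 * n + 1 + 1) = w ^ 2 * (t * (1 - t)) ^ 2 := by
    rw [pow_add, pow_add, mul_comm 2 n, pow_mul, hw]; ring
  have h5 : (4 * (n : ℝ) + 6) ≠ 0 := by positivity
  have h6 : (n : ℝ) + 1 ≠ 0 := by positivity
  have h7 : (n : ℝ) + 2 ≠ 0 := by positivity
  have h8 : 6 * (n : ℝ) + 7 ≠ 0 := by positivity
  push_cast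
  simp only [e1, e2, e3, e4, e5, e6, e7, e8, hw]
  clear a1 a2 a3 a4 a5 a6 a7 a8 a9 a10 z1 z22 z23 z33 hd hB hB1 e1 e2 e3 e4 e5 e6 e7 e8 hβ hw
  generalize kap n = κ at hk ⊢
  generalize (n : ℝ) = N at h5 h6 h7 h8 ⊢
  have h9 : 4 * N + 6 = 2 * (2 * N + 3) := by ring
  have h10 : 2 * N + 3 ≠ 0 := by
    intro h
    apply h5
    rw [h9, h]; ring
  rw [h9]
  have h11 : N * 6 + 7 ≠ 0 := by
    intro h
    apply h8
    rw [← h]; ring
  field_simp
  ring

theorem Pf_integral (n : ℕ) : ∫ t in (0 : ℝ)..1, Pf n t =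
    cst n * ((3 * n + 2).factorial * (3 * n + 2).factorial / (6 * n + 5).factorial) := by
  have hcB := (Bp n).continuous
  have hPc : Continuous (Pf n) := by
    unfold Pf
    fun_prop
  have hzc : Continuous (fun t : ℝ => cst n * (t * (1 - t)) ^ (3 * n + 2)) := by fun_prop
  have h1 : ∫ t in (0 : ℝ)..1, (Pf n t - cst n * (t * (1 - t)) ^ (3 * n + 2)) = 0 := by
    rw [intervalIntegral.integral_eq_sub_of_hasDerivAt (fun t _ => Psi_hasDerivAt n t)]
    · simp [Psi]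
    · exact (hPc.sub hzc).intervalIntegrable _ _
  rw [intervalIntegral.integral_sub (hPc.intervalIntegrable _ _) (hzc.intervalIntegrable _ _),
    intervalIntegral.integral_const_mul] at h1
  have h2 : ∫ t in (0 : ℝ)..1, (t * (1 - t)) ^ (3 * n + 2) =
      (3 * n + 2).factorial * (3 * n + 2).factorial / (6 * n + 5).factorial := by
    rw [show 6 * n + 5 = (3 * n + 2) + (3 * n + 2) + 1 by ring, ← beta_int]
    congr 1
    funext t
    rw [mul_pow]
  rw [h2] at h1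
  linarith

end Pool.Agent.Lib.MP_6a062b_co
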