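import Mathlib
import Pool.Agent.Lib.MP_6a062b_co.Cut

namespace Pool.Agent.Lib.MP_6a062b_co

open Finset

theorem V_prod {n : ℕ} (x : Fin n → ℚ) :
    V x = ∏ i, ∏ j, if i < j then x j - x i else 1 := by
  rw [V, Matrix.det_vandermonde]
  apply Finset.prod_congr rfl
  intro i _
  rw [← Finset.prod_filter, Finset.filter_lt_eq_Ioi]

theorem V_snoc {n : ℕ} (x : Fin (n + 1) → ℚ) :
    V x = V (fun b : Fin n => x b.castSucc) * ∏ b : Fin n, (x (Fin.last n) - x b.castSucc) := by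
  rw [V_prod, V_prod, Fin.prod_univ_castSucc]
  have h1 : (∏ j, if Fin.last n < j then x j - x (Fin.last n) else 1) = 1 := by
    apply Finset.prod_eq_one
    intro j _
    rw [if_neg (not_lt.2 (Fin.le_last j))]
  rw [h1, mul_one, ← Finset.prod_mul_distrib]
  apply Finset.prod_congr rfl
  intro i _
  rw [Fin.prod_univ_castSucc, if_pos (Fin.castSucc_lt_last i)]
  congr 1

theorem V_cons {n : ℕ} (x : Fin (n + 1) → ℚ) :
    V x = V (fun b : Fin n => x b.succ) * ∏ b : Fin n, (x b.succ - x 0) := by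
  rw [V_prod, V_prod, Fin.prod_univ_succ, Fin.prod_univ_succ, mul_comm]
  rw [if_neg (lt_irrefl _), one_mul]
  congr 1
  · apply Finset.prod_congr rfl
    intro i _
    rw [Fin.prod_univ_succ, if_neg (not_lt.2 (Fin.zero_le _)), one_mul]
    apply Finset.prod_congr rfl
    intro j _
    simp only [Fin.succ_lt_succ_iff]

theorem V_rev {n : ℕ} (x : Fin n → ℚ) (c : ℚ) :
    V (fun b => c - x (Fin.rev b)) = V x := by
  rw [V_prod, V_prod]
  rw [← Equiv.prod_comp Fin.revPerm]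
  rw [Finset.prod_comm]
  rw [← Equiv.prod_comp Fin.revPerm]
  apply Finset.prod_congr rfl
  intro i _
  apply Finset.prod_congr rfl
  intro j _
  simp only [Fin.revPerm_apply, Fin.rev_rev, Fin.rev_lt_rev]
  by_cases h : i < j
  · rw [if_pos h, if_pos h]; ring
  · rw [if_neg h, if_neg h]

theorem V_extl {k : ℕ} (ℓ : Fin k → ℕ) : V (fun b => (extl ℓ b : ℚ)) =
    V (fun b => (ℓ b : ℚ)) * ∏ b, (((2 * k : ℕ) : ℚ) - ℓ b) * (((2 * k + 1 : ℕ) : ℚ) - ℓ b) := by
  rw [V_snoc, V_snoc, Fin.prod_univ_castSucc]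
  have h1 : ∀ b : Fin k, extl ℓ b.castSucc.castSucc = ℓ b := by
    intro b
    simp [extl]
  have h2 : extl ℓ (Fin.last k).castSucc = 2 * k := by
    simp [extl]
    omega
  have h3 : extl ℓ (Fin.last (k + 1)) = 2 * k + 1 := by
    simp [extl]
    omega
  simp only [h1, h2, h3]
  rw [Finset.prod_mul_distrib]
  push_cast
  ring

theorem V_low {k : ℕ} (ℓ : Fin k → ℕ) (hl : ∀ b, ℓ b < 2 * k) : V (fun b => (low ℓ b : ℚ)) =
    V (fun b => (ℓ b : ℚ)) * ∏ b, (((2 * k + 1 : ℕ) : ℚ) - ℓ b) := by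
  rw [V_cons]
  have h1 : ∀ b : Fin k, (low ℓ b.succ : ℚ) = ((2 * k + 2 : ℕ) : ℚ) - ℓ (Fin.rev b) := by
    intro b
    simp only [low]
    rw [dif_neg (by simp)]
    have h2 : (⟨k - (b.succ : ℕ), by have := b.2; simp; omega⟩ : Fin k) = Fin.rev b := by
      apply Fin.ext
      simp [Fin.val_rev]
    have h3 := hl (Fin.rev b)
    rw [h2, Nat.cast_sub (by omega)]
  have h0 : (low ℓ 0 : ℚ) = 1 := by simp [low]
  simp only [h1, h0]
  rw [V_rev (fun b => (ℓ b : ℚ))]
  congr 1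
  rw [← Equiv.prod_comp Fin.revPerm]
  apply Finset.prod_congr rfl
  intro b _
  simp only [Fin.revPerm_apply, Fin.rev_rev]
  push_cast
  ring

theorem fact_extl {k : ℕ} (ℓ : Fin k → ℕ) : ∏ b, ((extl ℓ b).factorial : ℚ) =
    (∏ b, ((ℓ b).factorial : ℚ)) * (2 * k).factorial * (2 * k + 1).factorial := by
  rw [Fin.prod_univ_castSucc, Fin.prod_univ_castSucc]
  have h1 : ∀ b : Fin k, extl ℓ b.castSucc.castSucc = ℓ b := by
    intro b
    simp [extl]
  have h2 : extl ℓ (Fin.last k).castSucc = 2 * k := by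
    simp [extl]
    omega
  have h3 : extl ℓ (Fin.last (k + 1)) = 2 * k + 1 := by
    simp [extl]
    omega
  simp only [h1, h2, h3]

theorem fact_low {k : ℕ} (ℓ : Fin k → ℕ) : ∏ b, ((low ℓ b).factorial : ℚ) =
    ∏ b, ((2 * k + 2 - ℓ b).factorial : ℚ) := by
  rw [Fin.prod_univ_succ]
  have h0 : low ℓ 0 = 1 := by simp [low]
  rw [h0]
  simp only [Nat.factorial_one, Nat.cast_one, one_mul]
  rw [← Equiv.prod_comp Fin.revPerm]
  apply Finset.prod_congr rfl
  intro b _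
  simp only [Fin.revPerm_apply, low]
  rw [dif_neg (by simp)]
  congr 4
  apply Fin.ext
  simp only [Fin.val_succ, Fin.val_rev]
  have := b.2
  omega

theorem card_extl {k : ℕ} (ℓ : Fin k → ℕ) (h : StrictMono ℓ) :
    (diag (k + 2) (extl ℓ)).card + ∑ b : Fin k, (b : ℕ) = 2 * k + ∑ b, ℓ b := by
  rw [card_diag, Fin.sum_univ_castSucc, Fin.sum_univ_castSucc]
  have h1 : ∀ b : Fin k, extl ℓ b.castSucc.castSucc = ℓ b := by
    intro b
    simp [extl]
  have h2 : extl ℓ (Fin.last k).castSucc = 2 * k := by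
    simp [extl]
    omega
  have h3 : extl ℓ (Fin.last (k + 1)) = 2 * k + 1 := by
    simp [extl]
    omega
  simp only [h1, h2, h3, Fin.val_castSucc, Fin.val_last]
  have h4 : ∑ b : Fin k, (ℓ b - (b : ℕ)) + ∑ b : Fin k, (b : ℕ) = ∑ b, ℓ b := by
    rw [← Finset.sum_add_distrib]
    apply Finset.sum_congr rfl
    intro b _
    have := le_of_strictMono h b
    omega
  omega

theorem card_low {k : ℕ} (ℓ : Fin k → ℕ) (h : StrictMono ℓ) (hl : ∀ b, ℓ b < 2 * k) :
    (diag (k + 1) (low ℓ)).card + (diag (k + 2) (extl ℓ)).card + 1 = (D k).card := by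
  classical
  have hsub : diag (k + 2) (extl ℓ) ⊆ (D k).erase (2, k + 1) := by
    rcases Nat.eq_zero_or_pos k with hk | hk
    · subst hk
      intro x hx
      rw [mem_diag_extl] at hx
      rcases hx with ⟨h1, h2, h3⟩ | ⟨b, _⟩
      · omega
      · exact b.elim0
    · have hA : diag (k + 2) (extl ℓ) ∈ Adm adj (D k) (2, k + 1) := by
        rw [Adm_eq hk, Finset.mem_image]
        refine ⟨fun b => ⟨ℓ b, hl b⟩, ?_, rfl⟩
        simp only [Finset.mem_filter, Finset.mem_univ, true_and]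
        intro a b hab
        exact h hab
      exact ((mem_Adm adj).1 hA).1
  have h1 : (2, k + 1) ∈ D k := by rw [mem_D]; simp
  rw [← upper_eq h hl, Finset.card_image_of_injOn]
  · have h2 : insert (2, k + 1) (diag (k + 2) (extl ℓ)) ⊆ D k := by
      intro x hx
      rw [Finset.mem_insert] at hx
      rcases hx with rfl | hx
      · exact h1
      · exact Finset.mem_of_mem_erase (hsub hx)
    have h3 := Finset.card_sdiff_add_card_eq_card h2
    have h4 : (2, k + 1) ∉ diag (k + 2) (extl ℓ) := by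
      intro hx
      have := hsub hx
      simp at this
    rw [Finset.card_insert_of_notMem h4] at h3
    omega
  · rintro ⟨i, j⟩ hx ⟨i', j'⟩ hy heq
    simp only [Finset.coe_sdiff, Set.mem_sdiff, Finset.mem_coe, mem_D] at hx hy
    simp only [Prod.mk.injEq] at heq ⊢
    omega

/-- the weight -/
noncomputable def om (k : ℕ) (l : ℕ) : ℚ :=
  ((2 * k : ℕ) - l) * ((2 * k + 1 : ℕ) - l) ^ 2 / (l.factorial * (2 * k + 2 - l).factorial)

theorem e_D_formula {k : ℕ} (hk : 1 ≤ k) : (e adj (D k) : ℚ) =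
    ∑ ℓ ∈ Finset.univ.filter (fun ℓ : Fin k → Fin (2 * k) => StrictMono ℓ),
      ((diag (k + 2) (extl (fun b => (ℓ b : ℕ)))).card.factorial : ℚ) *
      ((diag (k + 1) (low (fun b => (ℓ b : ℕ)))).card.factorial : ℚ) *
      (V (fun b => (ℓ b : ℚ)) ^ 2 * ∏ b, om k (ℓ b)) / ((2 * k).factorial * (2 * k + 1).factorial) := by
  rw [e_D_sum hk]
  push_cast
  apply Finset.sum_congr rfl
  intro ℓ hℓ
  simp only [Finset.mem_filter, Finset.mem_univ, true_and] at hℓ
  have hsm : StrictMono (fun b => (ℓ b : ℕ)) := fun a b hab => hℓ hab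
  have hlt : ∀ b, (fun b => (ℓ b : ℕ)) b < 2 * k := fun b => (ℓ b).2
  rw [e_diag _ (extl_strictMono hsm hlt), e_diag _ (low_strictMono hsm hlt), V_extl,
    V_low _ hlt, fact_extl, fact_low]
  have h1 : ∏ b, om k (ℓ b) = (∏ b, ((((2 * k : ℕ) : ℚ) - (ℓ b : ℕ)) * (((2 * k + 1 : ℕ) : ℚ) - (ℓ b : ℕ)))) *
      (∏ b, (((2 * k + 1 : ℕ) : ℚ) - (ℓ b : ℕ))) / ((∏ b, (((ℓ b : ℕ)).factorial : ℚ)) *
        ∏ b, ((2 * k + 2 - (ℓ b : ℕ)).factorial : ℚ)) := by
    rw [← Finset.prod_mul_distrib, ← Finset.prod_mul_distrib, ← Finset.prod_div_distrib]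
    apply Finset.prod_congr rfl
    intro b _
    rw [om]
    ring
  rw [h1]
  have h2 : (∏ b, (((ℓ b : ℕ)).factorial : ℚ)) ≠ 0 :=
    Finset.prod_ne_zero_iff.2 (fun b _ => by exact_mod_cast Nat.factorial_ne_zero _)
  have h3 : (∏ b, ((2 * k + 2 - (ℓ b : ℕ)).factorial : ℚ)) ≠ 0 :=
    Finset.prod_ne_zero_iff.2 (fun b _ => by exact_mod_cast Nat.factorial_ne_zero _)
  have h4 : ((2 * k).factorial : ℚ) ≠ 0 := by exact_mod_cast Nat.factorial_ne_zero _
  have h5 : ((2 * k + 1).factorial : ℚ) ≠ 0 := by exact_mod_cast Nat.factorial_ne_zero _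
  field_simp

end Pool.Agent.Lib.MP_6a062b_co
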