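import Mathlib
import Pool.Agent.Lib.MP_6a062b_co.Final
import Pool.Agent.Lib.MP_6a062b_co.Terms

namespace Pool.Agent.Lib.MP_6a062b_co

open Finset

theorem V_cast {n : ℕ} (x : Fin n → ℕ) : ((V (fun b => (x b : ℚ)) : ℚ) : ℝ) = VR (fun b => (x b : ℝ)) := by
  rw [V, VR, Matrix.det_vandermonde, Matrix.det_vandermonde]
  push_cast
  rfl

theorem om_cast (k l : ℕ) : ((om k l : ℚ) : ℝ) = omR k l := by
  rw [om, omR]
  push_cast
  rfl

/-- sizes of the two parts -/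
noncomputable def ca {k : ℕ} (ℓ : Fin k → Fin (2 * k)) : ℕ :=
  (diag (k + 2) (extl (fun b => (ℓ b : ℕ)))).card

noncomputable def cb {k : ℕ} (ℓ : Fin k → Fin (2 * k)) : ℕ :=
  (diag (k + 1) (low (fun b => (ℓ b : ℕ)))).card

theorem e_D_real {k : ℕ} (hk : 1 ≤ k) : (e adj (D k) : ℝ) =
    ∑ ℓ ∈ Finset.univ.filter (fun ℓ : Fin k → Fin (2 * k) => StrictMono ℓ),
      ((ca ℓ).factorial : ℝ) * ((cb ℓ).factorial : ℝ) *
      (VR (fun b => ((ℓ b : ℕ) : ℝ)) ^ 2 * ∏ b, omR k (ℓ b)) /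
        ((2 * k).factorial * (2 * k + 1).factorial) := by
  have h := congrArg (fun x : ℚ => (x : ℝ)) (e_D_formula hk)
  simp only [Rat.cast_natCast, Rat.cast_sum, Rat.cast_div, Rat.cast_mul, Rat.cast_pow,
    Rat.cast_prod, om_cast] at h
  rw [h]
  apply Finset.sum_congr rfl
  intro ℓ _
  rw [V_cast (fun b => (ℓ b : ℕ))]
  rfl

noncomputable def dens (k : ℕ) (t : ℝ) : ℝ :=
  ∑ ℓ ∈ Finset.univ.filter (fun ℓ : Fin k → Fin (2 * k) => StrictMono ℓ),
      (VR (fun b => ((ℓ b : ℕ) : ℝ)) ^ 2 * ∏ b, omR k (ℓ b)) /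
        ((2 * k).factorial * (2 * k + 1).factorial) * (t ^ (ca ℓ) * (1 - t) ^ (cb ℓ))

theorem card_rel {k : ℕ} (hk : 1 ≤ k) {ℓ : Fin k → Fin (2 * k)} (h : StrictMono ℓ) :
    ca ℓ + cb ℓ + 1 = (D k).card ∧
    ca ℓ + ∑ b : Fin k, (b : ℕ) = 2 * k + ∑ b, (ℓ b : ℕ) ∧
    cb ℓ + ∑ b : Fin k, (b : ℕ) = 2 * k + 1 + ∑ b, (2 * k - 1 - (ℓ b : ℕ)) := by
  have hsm : StrictMono (fun b => (ℓ b : ℕ)) := fun a b hab => h hab
  have hlt : ∀ b, (fun b => (ℓ b : ℕ)) b < 2 * k := fun b => (ℓ b).2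
  have h1 := card_extl _ hsm
  have h2 := card_low _ hsm hlt
  have h3 := card_D k
  have h4 : (∑ b : Fin k, (b : ℕ)) * 2 = k * (k - 1) := by
    rw [Fin.sum_univ_eq_sum_range (fun i => i) k, Finset.sum_range_id_mul_two]
  have h5 : ∑ b, (2 * k - 1 - (ℓ b : ℕ)) + ∑ b, (ℓ b : ℕ) = k * (2 * k - 1) := by
    rw [← Finset.sum_add_distrib]
    have : ∀ b : Fin k, 2 * k - 1 - (ℓ b : ℕ) + (ℓ b : ℕ) = 2 * k - 1 := by
      intro b
      have := (ℓ b).2
      omega
    simp only [this]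
    simp
  refine ⟨?_, h1, ?_⟩
  · rw [ca, cb]
    omega
  · rw [cb]
    obtain ⟨m, rfl⟩ : ∃ m, k = m + 1 := ⟨k - 1, by omega⟩
    have e1 : (m + 1) * (m + 1 - 1) = m * m + m := by
      rw [Nat.add_sub_cancel]; ring
    have e2 : (m + 1) * (2 * (m + 1) - 1) = 2 * (m * m) + 3 * m + 1 := by
      rw [show 2 * (m + 1) - 1 = 2 * m + 1 by omega]; ring
    have e3 : (m + 1 + 2) * (m + 1 + 2) = m * m + 6 * m + 9 := by ring
    rw [e1] at h4
    rw [e2] at h5
    rw [e3] at h3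
    omega

theorem e_D_integral {k : ℕ} (hk : 1 ≤ k) : (e adj (D k) : ℝ) =
    ((D k).card.factorial : ℝ) * ∫ t in (0 : ℝ)..1, dens k t := by
  unfold dens
  rw [intervalIntegral.integral_finsetSum, Finset.mul_sum, e_D_real hk]
  · apply Finset.sum_congr rfl
    intro ℓ hℓ
    simp only [Finset.mem_filter, Finset.mem_univ, true_and] at hℓ
    rw [intervalIntegral.integral_const_mul, beta_int, (card_rel hk hℓ).1]
    have : ((D k).card.factorial : ℝ) ≠ 0 := by exact_mod_cast Nat.factorial_ne_zero _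
    field_simp
  · intro ℓ _
    apply Continuous.intervalIntegrable
    fun_prop

/-- final constant -/
noncomputable def C1 (k : ℕ) : ℝ :=
  (∏ b : Fin k, ((b : ℕ).factorial : ℝ)) / (∏ j : Fin k, ((2 * k - 1 - (j : ℕ)).factorial : ℝ)) /
    ((2 * k).factorial * (2 * k + 1).factorial)

theorem dens_eq (n : ℕ) {t : ℝ} (h0 : 0 < t) (h1 : t < 1) :
    dens (n + 1) t = C1 (n + 1) * Pf n t := by
  have hq : 0 < 1 - t := by linarith
  have hz : 0 < t * (1 - t) := mul_pos h0 hq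
  set k := n + 1 with hk
  set s := ∑ b : Fin k, (b : ℕ) with hs
  set S := ∑ ℓ ∈ Finset.univ.filter (fun ℓ : Fin k → Fin (2 * k) => StrictMono ℓ),
    (VR (fun b => ((ℓ b : ℕ) : ℝ)) ^ 2 *
        ∏ b, (omR k (ℓ b) * t ^ (ℓ b : ℕ) * (1 - t) ^ (2 * k - 1 - (ℓ b : ℕ)))) with hS
  have hA : (t * (1 - t)) ^ s * dens k t =
      (t * (1 - t)) ^ (2 * k) * (1 - t) / ((2 * k).factorial * (2 * k + 1).factorial) * S := by
    rw [dens, hS, Finset.mul_sum, Finset.mul_sum]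
    apply Finset.sum_congr rfl
    intro ℓ hℓ
    simp only [Finset.mem_filter, Finset.mem_univ, true_and] at hℓ
    obtain ⟨-, c2, c3⟩ := card_rel (by omega : 1 ≤ k) hℓ
    have e1 : (t * (1 - t)) ^ s * (t ^ (ca ℓ) * (1 - t) ^ (cb ℓ)) =
        (t * (1 - t)) ^ (2 * k) * (1 - t) * ((∏ b, t ^ (ℓ b : ℕ)) * ∏ b, (1 - t) ^ (2 * k - 1 - (ℓ b : ℕ))) := by
      rw [Finset.prod_pow_eq_pow_sum, Finset.prod_pow_eq_pow_sum, mul_pow, mul_pow]
      have e2 : t ^ s * (1 - t) ^ s * (t ^ (ca ℓ) * (1 - t) ^ (cb ℓ)) =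
          t ^ (ca ℓ + s) * (1 - t) ^ (cb ℓ + s) := by
        rw [pow_add, pow_add]; ring
      rw [e2, c2, c3, pow_add, pow_add, pow_add]
      ring
    have e3 : ∏ b, (omR k (ℓ b) * t ^ (ℓ b : ℕ) * (1 - t) ^ (2 * k - 1 - (ℓ b : ℕ))) =
        (∏ b, omR k (ℓ b)) * ((∏ b, t ^ (ℓ b : ℕ)) * ∏ b, (1 - t) ^ (2 * k - 1 - (ℓ b : ℕ))) := by
      rw [← Finset.prod_mul_distrib, ← Finset.prod_mul_distrib]
      apply Finset.prod_congr rfl
      intro b _
      ring
    rw [e3]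
    calc (t * (1 - t)) ^ s * ((VR (fun b => ((ℓ b : ℕ) : ℝ)) ^ 2 * ∏ b, omR k (ℓ b)) /
        ((2 * k).factorial * (2 * k + 1).factorial) * (t ^ (ca ℓ) * (1 - t) ^ (cb ℓ)))
        = (VR (fun b => ((ℓ b : ℕ) : ℝ)) ^ 2 * ∏ b, omR k (ℓ b)) /
        ((2 * k).factorial * (2 * k + 1).factorial) *
          ((t * (1 - t)) ^ s * (t ^ (ca ℓ) * (1 - t) ^ (cb ℓ))) := by ring
      _ = _ := by rw [e1]; ring
  have hε : (∏ i : Fin k, (-1 : ℝ) ^ (i : ℕ)) ≠ 0 :=
    Finset.prod_ne_zero_iff.2 (fun i _ => pow_ne_zero _ (by norm_num))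
  have hB := S_eq k (1 - t) t
  rw [← hS] at hB
  have hC := main_det n h0 h1
  rw [det_Msig (by ring) hq.ne', ← hk] at hC
  have hP1 : (∏ i : Fin k, t ^ (i : ℕ)) * (∏ i : Fin k, (1 - t) ^ (i : ℕ)) = (t * (1 - t)) ^ s := by
    rw [Finset.prod_pow_eq_pow_sum, Finset.prod_pow_eq_pow_sum, mul_pow]
  have hP2 : (∏ j : Fin k, (t ^ (j : ℕ) / (2 * k - 1 - (j : ℕ)).factorial)) =
      (∏ j : Fin k, t ^ (j : ℕ)) / (∏ j : Fin k, ((2 * k - 1 - (j : ℕ)).factorial : ℝ)) := by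
    rw [Finset.prod_div_distrib]
  have hFne : (∏ j : Fin k, ((2 * k - 1 - (j : ℕ)).factorial : ℝ)) ≠ 0 :=
    Finset.prod_ne_zero_iff.2 (fun b _ => by exact_mod_cast Nat.factorial_ne_zero _)
  have hD : S * ((1 - t) * (t * (1 - t)) ^ (2 * n + 2)) =
      (t * (1 - t)) ^ s * Pf n t * ((∏ b : Fin k, ((b : ℕ).factorial : ℝ)) /
        (∏ j : Fin k, ((2 * k - 1 - (j : ℕ)).factorial : ℝ))) := by
    apply mul_left_cancel₀ hε
    rw [← mul_assoc, hB, mul_assoc, hC, hP2, ← hP1]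
    field_simp
  have hzs : (t * (1 - t)) ^ s ≠ 0 := pow_ne_zero _ hz.ne'
  apply mul_left_cancel₀ hzs
  rw [hA]
  have hexp : 2 * n + 2 = 2 * k := by omega
  rw [hexp] at hD
  calc (t * (1 - t)) ^ (2 * k) * (1 - t) / ((2 * k).factorial * (2 * k + 1).factorial) * S
      = (S * ((1 - t) * (t * (1 - t)) ^ (2 * k))) / ((2 * k).factorial * (2 * k + 1).factorial) := by
        ring
    _ = _ := by
        rw [hD, C1]
        ring

theorem e_D_value (n : ℕ) : (e adj (D (n + 1)) : ℝ) = ((D (n + 1)).card.factorial : ℝ) *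
    (C1 (n + 1) * (cst n * ((3 * n + 2).factorial * (3 * n + 2).factorial / (6 * n + 5).factorial))) := by
  rw [e_D_integral (by omega)]
  congr 1
  rw [← Pf_integral, ← intervalIntegral.integral_const_mul]
  apply intervalIntegral.integral_congr_Ioo_of_le zero_le_one
  intro t ht
  exact dens_eq n ht.1 ht.2

/-- product of factorials `0! 1! ... (m-1)!` -/
def F (m : ℕ) : ℕ := ∏ i ∈ range m, i.factorial

theorem F_ratio (k : ℕ) : (∏ j : Fin k, ((2 * k - 1 - (j : ℕ)).factorial : ℝ)) * F k = F (2 * k) := by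
  rw [Fin.prod_univ_eq_prod_range (fun j : ℕ => ((2 * k - 1 - j).factorial : ℝ)) k, F, F,
    two_mul, Finset.prod_range_add, mul_comm]
  push_cast
  congr 1
  rw [← Finset.prod_range_reflect]
  apply Finset.prod_congr rfl
  intro j hj
  rw [Finset.mem_range] at hj
  congr 2
  omega

theorem e_D_zero : e adj (D 0) = 1 := by
  have h0 : D 0 = {(2, 1), (2, 2)} := by decide
  have h1 : maxs adj (D 0) = {(2, 2)} := by
    ext x
    rw [mem_maxs, h0]
    simp only [Finset.mem_insert, Finset.mem_singleton]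
    constructor
    · rintro ⟨rfl | rfl, h⟩
      · exact absurd (Or.inl ⟨rfl, rfl⟩) (h (2, 2) (Or.inr rfl))
      · rfl
    · rintro rfl
      refine ⟨Or.inr rfl, ?_⟩
      rintro y (rfl | rfl) <;> simp [adj]
  have h2 : maxs adj ({(2, 1)} : Finset (ℕ × ℕ)) = {(2, 1)} := by
    ext x
    rw [mem_maxs]
    simp only [Finset.mem_singleton]
    constructor
    · rintro ⟨rfl, -⟩; rfl
    · rintro rfl
      refine ⟨rfl, ?_⟩
      rintro y rfl
      simp [adj]
  have h3 : (D 0).erase (2, 2) = {(2, 1)} := by rw [h0]; decide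
  rw [e_rec, h1, Finset.sum_singleton, h3, e_rec, h2, Finset.sum_singleton]
  have h4 : ({(2, 1)} : Finset (ℕ × ℕ)).erase (2, 1) = ∅ := by decide
  rw [h4, e_empty, h0]
  decide

theorem e_D_final (k : ℕ) : (e adj (D k) : ℝ) *
    ((6 * k + 4).factorial * (2 * k + 2).factorial * (k.factorial) ^ 2 * F (2 * k)) =
    6 * ((D k).card.factorial : ℝ) * ((3 * k + 2).factorial) ^ 2 * (F k) ^ 2 := by
  cases k with
  | zero =>
    rw [e_D_zero]
    have h0 : (D 0).card = 2 := by decide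
    rw [h0]
    simp [F, Nat.factorial]
    norm_num
  | succ n =>
    rw [e_D_value, C1]
    have h1 := F_ratio (n + 1)
    have h2 : (∏ b : Fin (n + 1), ((b : ℕ).factorial : ℝ)) = F (n + 1) := by
      rw [Fin.prod_univ_eq_prod_range (fun j : ℕ => (j.factorial : ℝ)) (n + 1), F]
      push_cast
      rfl
    have hFne : (∏ j : Fin (n + 1), ((2 * (n + 1) - 1 - (j : ℕ)).factorial : ℝ)) ≠ 0 :=
      Finset.prod_ne_zero_iff.2 (fun b _ => by exact_mod_cast Nat.factorial_ne_zero _)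
    rw [h2, ← h1, cst, kap]
    set P := (∏ j : Fin (n + 1), ((2 * (n + 1) - 1 - (j : ℕ)).factorial : ℝ)) with hP
    clear_value P
    generalize (D (n + 1)).card.factorial = M
    generalize F (n + 1) = G
    have e1 : (((6 * (n + 1) + 4).factorial : ℕ) : ℝ) = (6 * n + 10) * (6 * n + 9) * (6 * n + 8) *
        (6 * n + 7) * (6 * n + 6) * (6 * n + 5).factorial := by
      rw [show 6 * (n + 1) + 4 = 6 * n + 5 + 1 + 1 + 1 + 1 + 1 by ring]
      simp only [Nat.factorial_succ (6 * n + 5 + 1 + 1 + 1 + 1), Nat.factorial_succ (6 * n + 5 + 1 + 1 + 1),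
        Nat.factorial_succ (6 * n + 5 + 1 + 1), Nat.factorial_succ (6 * n + 5 + 1),
        Nat.factorial_succ (6 * n + 5)]
      push_cast
      ring
    have e2 : (((3 * (n + 1) + 2).factorial : ℕ) : ℝ) = (3 * n + 5) * (3 * n + 4) * (3 * n + 3) *
        (3 * n + 2).factorial := by
      rw [show 3 * (n + 1) + 2 = 3 * n + 2 + 1 + 1 + 1 by ring]
      simp only [Nat.factorial_succ (3 * n + 2 + 1 + 1), Nat.factorial_succ (3 * n + 2 + 1),
        Nat.factorial_succ (3 * n + 2)]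
      push_cast
      ring
    have e3 : (((2 * (n + 1) + 2).factorial : ℕ) : ℝ) = (2 * n + 4) * (2 * (n + 1) + 1).factorial := by
      rw [show 2 * (n + 1) + 2 = (2 * (n + 1) + 1) + 1 by ring, Nat.factorial_succ]
      push_cast
      ring
    have e4 : (((2 * (n + 1)).factorial : ℕ) : ℝ) = (2 * n + 2) * (2 * n + 1).factorial := by
      rw [show 2 * (n + 1) = (2 * n + 1) + 1 by ring, Nat.factorial_succ]
      push_cast
      ring
    have e5 : (((n + 1).factorial : ℕ) : ℝ) = (n + 1) * n.factorial := by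
      rw [Nat.factorial_succ]
      push_cast
      ring
    rw [e1, e2, e3, e4, e5]
    have p1 : ((6 * n + 5).factorial : ℝ) ≠ 0 := by exact_mod_cast Nat.factorial_ne_zero _
    have p2 : ((3 * n + 2).factorial : ℝ) ≠ 0 := by exact_mod_cast Nat.factorial_ne_zero _
    have p3 : ((2 * (n + 1) + 1).factorial : ℝ) ≠ 0 := by exact_mod_cast Nat.factorial_ne_zero _
    have p4 : ((2 * n + 1).factorial : ℝ) ≠ 0 := by exact_mod_cast Nat.factorial_ne_zero _
    have p5 : (n.factorial : ℝ) ≠ 0 := by exact_mod_cast Nat.factorial_ne_zero _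
    generalize ((6 * n + 5).factorial : ℝ) = a1 at *
    generalize ((3 * n + 2).factorial : ℝ) = a2 at *
    generalize ((2 * (n + 1) + 1).factorial : ℝ) = a3 at *
    generalize ((2 * n + 1).factorial : ℝ) = a4 at *
    generalize (n.factorial : ℝ) = a5 at *
    have q1 : (n : ℝ) + 1 ≠ 0 := by positivity
    have q2 : (n : ℝ) + 2 ≠ 0 := by positivity
    have q3 : 2 * (n : ℝ) + 3 ≠ 0 := by positivity
    have q4 : 6 * (n : ℝ) + 7 ≠ 0 := by positivity
    generalize (n : ℝ) = N at *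
    have q5 : N * 6 + 7 ≠ 0 := by
      intro h; apply q4; rw [← h]; ring
    have q6 : N * 2 + 3 ≠ 0 := by
      intro h; apply q3; rw [← h]; ring
    field_simp
    ring

end Pool.Agent.Lib.MP_6a062b_co
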